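import Pool.Agent.V7H19.JC.Shrunk

/-!
# Blocks of weight one are shrunk subspaces
-/

set_option autoImplicit false

namespace Pool.Agent.V7H19.JC

open Module Matrix

variable {F : Type*} [Field F] {m n : ℕ}

/-- A block of weight one is the same as a shrunk subspace. -/
theorem exists_shrunk_of_block {S J : Submodule F (Matrix (Fin m) (Fin n) F)}
    {P : Matrix (Fin n) (Fin m) F} {A : Matrix (Fin m) (Fin n) F} (h : IsBlock (1 : F) S J P A) :
    ∃ (U : Submodule F (Fin n → F)) (W : Submodule F (Fin m → F)),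
      (∀ x ∈ S, ∀ u ∈ U, x *ᵥ u ∈ W) ∧ finrank F W + (n - finrank F U) = P.rank := by
  obtain ⟨hP, hSJ, hJ, hc⟩ := h
  let N : Submodule F (Fin n → F) := LinearMap.ker (P * A).mulVecLin
  have hN : ∀ v ∈ N, (1 - P * A) *ᵥ v = v := by
    intro v hv
    have h1 : (P * A) *ᵥ v = 0 := hv
    rw [Matrix.sub_mulVec, Matrix.one_mulVec, h1, sub_zero]
  let B : Submodule F (Fin m → F) := Submodule.span F {z | ∃ y ∈ J, ∃ v ∈ N, z = y *ᵥ v}
  have hB1 : ∀ b ∈ B, (A * P) *ᵥ b = b := by
    intro b hb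
    refine Submodule.span_induction (p := fun b _ => (A * P) *ᵥ b = b) ?_ ?_ ?_ ?_ hb
    · rintro _ ⟨y, hy, v, hv, rfl⟩
      have h1 := congrArg (fun M : Matrix (Fin m) (Fin n) F => M *ᵥ v) (hc y hy)
      simp only [Matrix.zero_mulVec] at h1
      rw [← Matrix.mulVec_mulVec, ← Matrix.mulVec_mulVec, hN v hv, Matrix.sub_mulVec,
        Matrix.one_mulVec] at h1
      exact (sub_eq_zero.1 h1).symm
    · exact Matrix.mulVec_zero _
    · intro a b _ _ ha hb
      rw [Matrix.mulVec_add, ha, hb]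
    · intro c a _ ha
      rw [Matrix.mulVec_smul, ha]
  have hB2 : ∀ x ∈ S, ∀ b ∈ B, x *ᵥ (P *ᵥ b) ∈ B := by
    intro x hx b hb
    refine Submodule.span_induction (p := fun b _ => x *ᵥ (P *ᵥ b) ∈ B) ?_ ?_ ?_ ?_ hb
    · rintro _ ⟨y, hy, v, hv, rfl⟩
      apply Submodule.subset_span
      refine ⟨x * P * y, ?_, v, hv, ?_⟩
      · have h1 := hJ x hx y hy
        simpa using h1
      · simp only [Matrix.mulVec_mulVec, Matrix.mul_assoc]
    · simp
    · intro a b _ _ ha hb
      rw [Matrix.mulVec_add, Matrix.mulVec_add]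
      exact add_mem ha hb
    · intro c a _ ha
      rw [Matrix.mulVec_smul, Matrix.mulVec_smul]
      exact Submodule.smul_mem _ _ ha
  refine ⟨B.map P.mulVecLin ⊔ N, B, ?_, ?_⟩
  · intro x hx u hu
    obtain ⟨a, ⟨b, hb, rfl⟩, c, hc', rfl⟩ := Submodule.mem_sup.1 hu
    rw [Matrix.mulVec_add]
    exact add_mem (hB2 x hx b hb) (Submodule.subset_span ⟨x, hSJ hx, c, hc', rfl⟩)
  · have h3 := Submodule.finrank_sup_add_finrank_inf_eq (B.map P.mulVecLin) N
    have h4 : B.map P.mulVecLin ⊓ N = ⊥ := by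
      rw [eq_bot_iff]
      rintro _ ⟨⟨b, hb, rfl⟩, hc'⟩
      have h5 : (P * A) *ᵥ (P *ᵥ b) = 0 := hc'
      rw [Matrix.mulVec_mulVec, hP] at h5
      exact h5
    have h5 : finrank F (B.map P.mulVecLin) = finrank F B := by
      have h6 : Function.Injective (P.mulVecLin.domRestrict B) := by
        rw [injective_iff_map_eq_zero]
        rintro ⟨b, hb⟩ h7
        have h8 : P *ᵥ b = 0 := h7
        have h9 := hB1 b hb
        rw [← Matrix.mulVec_mulVec, h8, Matrix.mulVec_zero] at h9
        exact Subtype.ext h9.symm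
      have h7 := LinearMap.finrank_range_of_inj h6
      rw [LinearMap.range_domRestrict] at h7
      exact h7
    have h6 := LinearMap.finrank_range_add_finrank_ker (P * A).mulVecLin
    have h7 : (P * A).rank = P.rank := by
      apply le_antisymm (Matrix.rank_mul_le_left _ _)
      conv_lhs => rw [← hP]
      exact Matrix.rank_mul_le_left _ _
    have h8 : finrank F (LinearMap.range (P * A).mulVecLin) = P.rank := h7
    rw [h4, finrank_bot, add_zero, h5] at h3
    rw [Module.finrank_fin_fun, h8] at h6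
    have h9 : finrank F N = finrank F (LinearMap.ker (P * A).mulVecLin) := rfl
    have h10 : finrank F ↥(B.map P.mulVecLin ⊔ N) ≤ n := by
      have := Submodule.finrank_le (B.map P.mulVecLin ⊔ N)
      rwa [Module.finrank_fin_fun] at this
    omega

end Pool.Agent.V7H19.JC
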