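import Pool.Agent.V7H19.JC.Regular

/-!
# Spaces closed under `x yᵀ x` over ordered fields
-/

set_option autoImplicit false

namespace Pool.Agent.V7H19.JC

open Module Matrix Polynomial

variable {F : Type*} [Field F] [LinearOrder F] [IsStrictOrderedRing F] {m n : ℕ}

theorem eq_zero_of_transpose_mul (Z : Matrix (Fin m) (Fin n) F) (h : Zᵀ * Z = 0) : Z = 0 := by
  ext i j
  have h1 := congrFun (congrFun h j) j
  rw [Matrix.mul_apply, Matrix.zero_apply] at h1
  have h2 := (Finset.sum_eq_zero_iff_of_nonneg (fun i _ => by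
    rw [Matrix.transpose_apply]; exact mul_self_nonneg _)).1 h1 i (Finset.mem_univ i)
  rw [Matrix.transpose_apply] at h2
  exact mul_self_eq_zero.1 h2

omit [LinearOrder F] [IsStrictOrderedRing F] in
theorem aeval_transpose (G : Matrix (Fin n) (Fin n) F) (hG : Gᵀ = G) (q : F[X]) :
    (aeval G q)ᵀ = aeval G q := by
  rw [Polynomial.aeval_eq_sum_range, Matrix.transpose_sum]
  refine Finset.sum_congr rfl fun i _ => ?_
  rw [Matrix.transpose_smul, Matrix.transpose_pow, hG]

/-- A symmetric matrix over an ordered field is von Neumann regular in the algebra it generates. -/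
theorem exists_regular (G : Matrix (Fin n) (Fin n) F) (hG : Gᵀ = G) :
    ∃ q : F[X], G * G * aeval G q = G := by
  classical
  let 𝒜 := Algebra.adjoin F {G}
  have hGm : G ∈ 𝒜 := Algebra.subset_adjoin rfl
  let f : 𝒜 →ₗ[F] 𝒜 := LinearMap.mulLeft F (⟨G, hGm⟩ : 𝒜)
  have hf : ∀ z : 𝒜, ((f z : 𝒜) : Matrix (Fin n) (Fin n) F) = G * z := fun z => rfl
  have hpoly : ∀ z : 𝒜, ∃ q : F[X], (z : Matrix (Fin n) (Fin n) F) = aeval G q := by
    rintro ⟨z, hz⟩
    have : z ∈ (aeval G : F[X] →ₐ[F] Matrix (Fin n) (Fin n) F).range := by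
      rw [← Algebra.adjoin_singleton_eq_range_aeval]
      exact hz
    obtain ⟨q, hq⟩ := this
    exact ⟨q, hq.symm⟩
  have hker : LinearMap.ker (f ∘ₗ f) = LinearMap.ker f := by
    apply le_antisymm
    · intro z hz
      rw [LinearMap.mem_ker] at hz ⊢
      have h1 : G * (G * (z : Matrix (Fin n) (Fin n) F)) = 0 := by
        have := congrArg (Subtype.val) hz
        simpa [hf] using this
      obtain ⟨q, hq⟩ := hpoly z
      have h2 : G * (z : Matrix (Fin n) (Fin n) F) = 0 := by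
        apply eq_zero_of_transpose_mul
        rw [Matrix.transpose_mul, hG, Matrix.mul_assoc, h1, Matrix.mul_zero]
      exact Subtype.ext h2
    · intro z hz
      rw [LinearMap.mem_ker] at hz ⊢
      rw [LinearMap.comp_apply, hz, map_zero]
  have hrange : LinearMap.range (f ∘ₗ f) = LinearMap.range f := by
    apply Submodule.eq_of_le_of_finrank_eq
    · exact LinearMap.range_comp_le_range f f
    · have h1 := LinearMap.finrank_range_add_finrank_ker f
      have h2 := LinearMap.finrank_range_add_finrank_ker (f ∘ₗ f)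
      rw [hker] at h2
      omega
  have h1 : f 1 ∈ LinearMap.range (f ∘ₗ f) := by
    rw [hrange]
    exact ⟨1, rfl⟩
  obtain ⟨z, hz⟩ := h1
  obtain ⟨q, hq⟩ := hpoly z
  refine ⟨q, ?_⟩
  have h2 := congrArg (Subtype.val) hz
  have h3 : G * (G * (z : Matrix (Fin n) (Fin n) F)) = G * 1 := h2
  rw [Matrix.mul_assoc, ← hq, h3, Matrix.mul_one]

/-- Regularity of the spaces closed under `x yᵀ x`. -/
theorem exists_inverse (S : Submodule F (Matrix (Fin m) (Fin n) F))
    (hS : ∀ x ∈ S, ∀ y ∈ S, x * yᵀ * x ∈ S) (A : Matrix (Fin m) (Fin n) F) (hA : A ∈ S) :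
    ∃ y : Matrix (Fin n) (Fin m) F, A * y * A = A ∧ ∀ x ∈ S, x * y * x ∈ S := by
  have hG : (Aᵀ * A)ᵀ = Aᵀ * A := by rw [Matrix.transpose_mul, Matrix.transpose_transpose]
  obtain ⟨q, hq⟩ := exists_regular (Aᵀ * A) hG
  set G := Aᵀ * A with hGdef
  set h := aeval G q with hh
  have hsym : hᵀ = h := aeval_transpose G hG q
  have hcomm : G * h = h * G := by
    have h1 : aeval G (X : F[X]) * aeval G q = aeval G q * aeval G (X : F[X]) := by
      rw [← map_mul, ← map_mul, mul_comm]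
    rwa [Polynomial.aeval_X] at h1
  have hpow : ∀ k : ℕ, A * G ^ k ∈ S := by
    intro k
    induction k with
    | zero => simpa using hA
    | succ k ih =>
      have h1 := hS A hA _ ih
      convert h1 using 1
      rw [Matrix.transpose_mul, Matrix.transpose_pow, hG, pow_succ, hGdef]
      simp only [Matrix.mul_assoc]
  have hb : A * h ∈ S := by
    rw [hh, Polynomial.aeval_eq_sum_range, Matrix.mul_sum]
    refine Submodule.sum_mem _ fun i _ => ?_
    rw [Matrix.mul_smul]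
    exact Submodule.smul_mem _ _ (hpow i)
  refine ⟨(A * h)ᵀ, ?_, fun x hx => hS x hx _ hb⟩
  rw [Matrix.transpose_mul, hsym]
  have h1 : A * (h * Aᵀ) * A = A * (h * G) := by
    simp only [hGdef, Matrix.mul_assoc]
  rw [h1, ← sub_eq_zero]
  apply eq_zero_of_transpose_mul
  have h2 : Aᵀ * (A * (h * G) - A) = 0 := by
    rw [Matrix.mul_sub, ← Matrix.mul_assoc, ← hGdef, ← hcomm, ← Matrix.mul_assoc, hq, sub_self]
  have h3 : A * (h * G) - A = A * (h * G - 1) := by
    rw [Matrix.mul_sub, Matrix.mul_one]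
  conv_lhs => rw [h3, Matrix.transpose_mul, ← h3]
  rw [Matrix.mul_assoc, h2, Matrix.mul_zero]

theorem triple_tfae (S : Submodule F (Matrix (Fin m) (Fin n) F))
    (hS : ∀ x ∈ S, ∀ y ∈ S, x * yᵀ * x ∈ S) (A : Matrix (Fin m) (Fin n) F) (hA : A ∈ S) :
    List.TFAE [∀ x ∈ S, ∀ v, A *ᵥ v = 0 → ∃ w, x *ᵥ v = A *ᵥ w,
      ∀ x ∈ S, x.rank ≤ A.rank,
      Certified (S : Set (Matrix (Fin m) (Fin n) F)) A.rank (1 + m + n)] := by
  obtain ⟨y, hy1, hy2⟩ := exists_inverse S hS A hA
  exact regular_tfae two_ne_zero S A hA y hy1 hy2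

omit [LinearOrder F] [IsStrictOrderedRing F] in
theorem exists_max (S : Submodule F (Matrix (Fin m) (Fin n) F)) :
    ∃ A ∈ S, ∀ x ∈ S, x.rank ≤ A.rank := by
  classical
  have h : ∃ r, ∃ A ∈ S, A.rank = r := ⟨_, 0, zero_mem S, rfl⟩
  let p : ℕ → Prop := fun r => ∃ A ∈ S, A.rank = r
  have h1 : ∀ r, p r → r ≤ n := by
    rintro r ⟨A, _, rfl⟩
    exact Matrix.rank_le_width A
  obtain ⟨A, hA, hr⟩ := Nat.findGreatest_spec (P := p) (h1 _ ⟨0, zero_mem S, rfl⟩)
    ⟨0, zero_mem S, rfl⟩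
  refine ⟨A, hA, fun x hx => ?_⟩
  rw [hr]
  exact Nat.le_findGreatest (h1 _ ⟨x, hx, rfl⟩) ⟨x, hx, rfl⟩

end Pool.Agent.V7H19.JC
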