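import Pool.Agent.V7H19.JC.Mat

/-!
# Jordan certificates: soundness for the generic matrix
-/

set_option autoImplicit false

namespace Pool.Agent.V7H19.JC

open Module Matrix

section minors

variable {K : Type*} [Field K]

theorem exists_rows {m n : Type*} [Fintype m] [Fintype n] (M : Matrix m n K) (k : ℕ)
    (hk : M.rank = k) : ∃ r : Fin k → m, LinearIndependent K (M.submatrix r id).row := by
  classical
  rw [Matrix.rank_eq_finrank_span_row] at hk
  obtain ⟨f, hf, -, hli⟩ := Submodule.exists_fun_fin_finrank_span_eq K (Set.range M.row)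
  choose r hr using hf
  subst hk
  refine ⟨r, ?_⟩
  have : (M.submatrix r id).row = f := by
    funext i
    rw [← hr i]
    rfl
  rw [this]
  exact hli

theorem exists_minor {m n : Type*} [Fintype m] [Fintype n] (M : Matrix m n K) (k : ℕ)
    (hk : M.rank = k) : ∃ (r : Fin k → m) (c : Fin k → n), (M.submatrix r c).det ≠ 0 := by
  classical
  obtain ⟨r, hr⟩ := exists_rows M k hk
  have h1 : (M.submatrix r id)ᵀ.rank = k := by
    rw [Matrix.rank_transpose]
    rw [LinearIndependent.rank_matrix hr, Fintype.card_fin]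
  obtain ⟨c, hc⟩ := exists_rows _ k h1
  refine ⟨r, c, ?_⟩
  have h2 : (M.submatrix r id)ᵀ.submatrix c id = (M.submatrix r c)ᵀ := rfl
  rw [h2, Matrix.linearIndependent_rows_iff_isUnit, Matrix.isUnit_iff_isUnit_det,
    Matrix.det_transpose] at hc
  exact hc.ne_zero

theorem le_rank_of_minor {m n : Type*} [Fintype m] [Fintype n] (M : Matrix m n K) (k : ℕ)
    (r : Fin k → m) (c : Fin k → n) (h : (M.submatrix r c).det ≠ 0) : k ≤ M.rank := by
  classical
  have h1 : (M.submatrix r c).rank = k := by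
    rw [Matrix.rank_of_isUnit _ ((Matrix.isUnit_iff_isUnit_det _).2 (isUnit_iff_ne_zero.2 h)),
      Fintype.card_fin]
  calc k = (M.submatrix r c).rank := h1.symm
    _ ≤ M.rank := Matrix.rank_submatrix_le M r c

/-- specialisation does not increase the rank -/
theorem rank_map_le {R E L : Type*} [CommRing R] [Field E] [Field L] {m n : Type*} [Fintype m]
    [Fintype n] (M : Matrix m n R) (φ : R →+* E) (ψ : R →+* L) (hψ : Function.Injective ψ) :
    (M.map φ).rank ≤ (M.map ψ).rank := by
  classical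
  obtain ⟨r, c, h⟩ := exists_minor (M.map φ) _ rfl
  apply le_rank_of_minor _ _ r c
  have h1 : ((M.map φ).submatrix r c).det = φ (M.submatrix r c).det := by
    rw [RingHom.map_det]; rfl
  have h2 : ((M.map ψ).submatrix r c).det = ψ (M.submatrix r c).det := by
    rw [RingHom.map_det]; rfl
  rw [h1] at h
  rw [h2]
  intro h3
  apply h
  rw [(map_eq_zero_iff ψ hψ).1 h3, map_zero]

end minors

theorem rank_add_le' {K : Type*} [Field K] {m n : ℕ} (M N : Matrix (Fin m) (Fin n) K) :
    (M + N).rank ≤ M.rank + N.rank := by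
  unfold Matrix.rank
  rw [Matrix.mulVecLin_add]
  exact (Submodule.finrank_mono (LinearMap.range_add_le _ _)).trans
    (Submodule.finrank_add_le_finrank_add_finrank _ _)

theorem rank_sum_le {K : Type*} [Field K] {m n : ℕ} {κ : Type*} (s : Finset κ)
    (M : κ → Matrix (Fin m) (Fin n) K) : (∑ j ∈ s, M j).rank ≤ ∑ j ∈ s, (M j).rank := by
  classical
  induction s using Finset.induction_on with
  | empty => simp
  | insert a s ha ih =>
    rw [Finset.sum_insert ha, Finset.sum_insert ha]
    exact (rank_add_le' _ _).trans (Nat.add_le_add_left ih _)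

variable {F : Type*} [Field F] {m n p q : ℕ}

section base

variable {E : Type*} [Field E] [Algebra F E]

/-- The rank bound for a generic element of a block. -/
theorem IsBlock.rank_le {w : F} {S J : Submodule F (Matrix (Fin p) (Fin q) F)}
    {P : Matrix (Fin q) (Fin p) F} {A : Matrix (Fin p) (Fin q) F} (h : IsBlock w S J P A)
    {κ : Type*} [Fintype κ] (y : κ → Matrix (Fin p) (Fin q) F) (hy : ∀ k, y k ∈ S) (c : κ → E) :
    (∑ k, c k • (y k).map (algebraMap F E)).rank ≤ P.rank := by
  classical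
  obtain ⟨hP, hSJ, hJ, hc⟩ := h
  let μ : Matrix (Fin p) (Fin q) F →ₗ[F] Matrix (Fin p) (Fin q) E :=
    (Algebra.linearMap F E).mapMatrix
  have hμ : ∀ M, μ M = M.map (algebraMap F E) := fun M => rfl
  let JE : Submodule E (Matrix (Fin p) (Fin q) E) := Submodule.span E (μ '' (J : Set _))
  have hmem : ∀ y ∈ J, μ y ∈ JE := fun y hy => Submodule.subset_span ⟨y, hy, rfl⟩
  have h1 : (P.map (algebraMap F E)).rank ≤ P.rank := by
    have := rank_map_le P (algebraMap F E) (RingHom.id F) Function.injective_id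
    simpa using this
  refine le_trans ?_ h1
  have hmul : ∀ {a b c : ℕ} (M : Matrix (Fin a) (Fin b) F) (N : Matrix (Fin b) (Fin c) F),
      (M * N).map (algebraMap F E) = M.map (algebraMap F E) * N.map (algebraMap F E) :=
    fun M N => Matrix.map_mul
  have hadd : ∀ {a b : ℕ} (M N : Matrix (Fin a) (Fin b) F),
      (M + N).map (algebraMap F E) = M.map (algebraMap F E) + N.map (algebraMap F E) :=
    fun M N => Matrix.map_add _ (fun _ _ => map_add _ _ _) _ _
  have hsub : ∀ {a b : ℕ} (M N : Matrix (Fin a) (Fin b) F),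
      (M - N).map (algebraMap F E) = M.map (algebraMap F E) - N.map (algebraMap F E) :=
    fun M N => Matrix.map_sub _ (fun _ _ => map_sub _ _ _) _ _
  have hone : ∀ {a : ℕ}, (1 : Matrix (Fin a) (Fin a) F).map (algebraMap F E) = 1 := by
    intro a
    exact Matrix.map_one _ (map_zero _) (map_one _)
  have hsm : ∀ (t : F) {a b : ℕ} (M : Matrix (Fin a) (Fin b) F),
      (t • M).map (algebraMap F E) = (algebraMap F E t) • M.map (algebraMap F E) := by
    intro t a b M
    ext i j
    simp
  apply rank_le_of_stable (algebraMap F E w) JE _ (A.map (algebraMap F E)) (P.map (algebraMap F E))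
  · rw [← hmul, ← hmul, hP]
  · exact Submodule.sum_mem _ fun k _ => Submodule.smul_mem _ _ (hmem _ (hSJ (hy k)))
  · intro z hz
    refine Submodule.span_induction (p := fun z _ =>
      (1 - algebraMap F E w) • (z * P.map (algebraMap F E) * ∑ k, c k • (y k).map (algebraMap F E)) +
      (algebraMap F E w) • ((∑ k, c k • (y k).map (algebraMap F E)) * P.map (algebraMap F E) * z)
        ∈ JE) ?_ ?_ ?_ ?_ hz
    · rintro _ ⟨z, hz, rfl⟩
      have h2 : (1 - algebraMap F E w) • (μ z * P.map (algebraMap F E) *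
          ∑ k, c k • (y k).map (algebraMap F E)) +
          (algebraMap F E w) • ((∑ k, c k • (y k).map (algebraMap F E)) *
            P.map (algebraMap F E) * μ z) =
          ∑ k, c k • μ ((1 - w) • (z * P * y k) + w • (y k * P * z)) := by
        rw [Matrix.mul_sum, Matrix.sum_mul, Matrix.sum_mul, Finset.smul_sum, Finset.smul_sum,
          ← Finset.sum_add_distrib]
        refine Finset.sum_congr rfl fun k _ => ?_
        rw [hμ, hμ, hadd, hsm, hsm, hmul, hmul, hmul, hmul, map_sub, map_one, smul_add]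
        simp only [Matrix.mul_smul, Matrix.smul_mul, smul_smul]
        congr 1
        · rw [mul_comm]
        · rw [mul_comm]
      rw [h2]
      exact Submodule.sum_mem _ fun k _ => Submodule.smul_mem _ _ (hmem _ (hJ _ (hy k) _ hz))
    · simp
    · intro a b _ _ ha hb
      have h2 := add_mem ha hb
      convert h2 using 1
      rw [Matrix.add_mul, Matrix.add_mul, Matrix.mul_add, smul_add, smul_add]
      abel
    · intro t a _ ha
      have h2 := Submodule.smul_mem _ t ha
      convert h2 using 1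
      rw [Matrix.smul_mul, Matrix.smul_mul, Matrix.mul_smul, smul_add, smul_comm t, smul_comm t]
  · intro z hz
    refine Submodule.span_induction (p := fun z _ =>
      (1 - A.map (algebraMap F E) * P.map (algebraMap F E)) * z *
        (1 - P.map (algebraMap F E) * A.map (algebraMap F E)) = 0) ?_ ?_ ?_ ?_ hz
    · rintro _ ⟨z, hz, rfl⟩
      rw [hμ, ← hmul, ← hmul, ← hone, ← hone, ← hsub, ← hsub, ← hmul, ← hmul, hc z hz]
      ext i j
      simp
    · simp
    · intro a b _ _ ha hb
      rw [Matrix.mul_add, Matrix.add_mul, ha, hb, add_zero]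
    · intro t a _ ha
      rw [Matrix.mul_smul, Matrix.smul_mul, ha, smul_zero]

end base

/-- A Jordan block: matrices `P`, `A` with `P A P = P` and spaces `S ⊆ J` of `p × q` matrices with
`(1 - w) y P x + w x P y ∈ J` for `x ∈ S`, `y ∈ J`, and `(1 - A P) y (1 - P A) = 0` for `y ∈ J`,
and two matrices `L`, `R`. -/
structure Block (F : Type*) [Field F] (m n : ℕ) where
  /-- the number of rows -/
  p : ℕ
  /-- the number of columns -/
  q : ℕ
  /-- the weight -/
  w : F
  /-- the space of the matrices in question -/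
  S : Submodule F (Matrix (Fin p) (Fin q) F)
  /-- a larger stable space -/
  J : Submodule F (Matrix (Fin p) (Fin q) F)
  /-- the matrix the rank of which is the bound -/
  P : Matrix (Fin q) (Fin p) F
  /-- a generalised inverse of `P` -/
  A : Matrix (Fin p) (Fin q) F
  /-- the left factor -/
  L : Matrix (Fin m) (Fin p) F
  /-- the right factor -/
  R : Matrix (Fin q) (Fin n) F
  isBlock : IsBlock w S J P A

/-- The space `L S R`. -/
def Block.space (b : Block F m n) : Submodule F (Matrix (Fin m) (Fin n) F) :=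
  b.S.map (mulRightLinearMap (Fin m) F b.R ∘ₗ mulLeftLinearMap (Fin b.q) F b.L)

theorem Block.mem_space (b : Block F m n) (x : Matrix (Fin m) (Fin n) F) :
    x ∈ b.space ↔ ∃ y ∈ b.S, b.L * y * b.R = x := Iff.rfl

/-- A Jordan certificate of value at most `r` and of size at most `s` for a set `T` of matrices:
finitely many blocks such that `T` is contained in the sum of the spaces `L S R`, the sum of the
ranks of the matrices `P` is at most `r`, and the sum of the numbers `1 + p + q` at most `s`. -/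
def Certified (T : Set (Matrix (Fin m) (Fin n) F)) (r s : ℕ) : Prop :=
  ∃ (κ : Type) (_ : Fintype κ) (b : κ → Block F m n), (∀ x ∈ T, x ∈ ⨆ j, (b j).space) ∧
    ∑ j, (b j).P.rank ≤ r ∧ ∑ j, (1 + (b j).p + (b j).q) ≤ s

theorem mem_iSup_space {κ : Type} [Fintype κ] (b : κ → Block F m n)
    (x : Matrix (Fin m) (Fin n) F) (hx : x ∈ ⨆ j, (b j).space) :
    ∃ y : ∀ j, Matrix (Fin (b j).p) (Fin (b j).q) F,
      (∀ j, y j ∈ (b j).S) ∧ x = ∑ j, (b j).L * y j * (b j).R := by
  classical
  have h : (⨆ j, (b j).space) = ⨆ j ∈ (Finset.univ : Finset κ), (b j).space := by simp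
  rw [h, Submodule.mem_iSup_finset_iff_exists_sum] at hx
  obtain ⟨μ, hμ⟩ := hx
  choose y hy1 hy2 using fun j => ((b j).mem_space _).1 (μ j).2
  exact ⟨y, hy1, by rw [← hμ]; exact Finset.sum_congr rfl fun j _ => (hy2 j).symm⟩

/-- **Soundness.** -/
theorem Certified.rank_le {T : Set (Matrix (Fin m) (Fin n) F)} {r s : ℕ} (h : Certified T r s)
    {E : Type*} [Field E] [Algebra F E] {κ : Type*} [Fintype κ]
    (a : κ → Matrix (Fin m) (Fin n) F) (ha : ∀ k, a k ∈ T) (c : κ → E) :
    (∑ k, c k • (a k).map (algebraMap F E)).rank ≤ r := by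
  classical
  obtain ⟨N, _, b, hT, hr, -⟩ := h
  choose y hy1 hy2 using fun k => mem_iSup_space b (a k) (hT (a k) (ha k))
  have h1 : ∑ k, c k • (a k).map (algebraMap F E) =
      ∑ j, (b j).L.map (algebraMap F E) * (∑ k, c k • (y k j).map (algebraMap F E)) *
        (b j).R.map (algebraMap F E) := by
    have h2 : ∀ k, c k • (a k).map (algebraMap F E) =
        ∑ j, (b j).L.map (algebraMap F E) * (c k • (y k j).map (algebraMap F E)) *
          (b j).R.map (algebraMap F E) := by
      intro k
      have h3 : (a k).map (algebraMap F E) =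
          ∑ j, (b j).L.map (algebraMap F E) * ((y k j).map (algebraMap F E)) *
          (b j).R.map (algebraMap F E) := by
        conv_lhs => rw [hy2 k]
        ext i j
        simp only [Matrix.map_apply, Matrix.sum_apply, map_sum]
        refine Finset.sum_congr rfl fun t _ => ?_
        rw [← Matrix.map_mul, ← Matrix.map_mul, Matrix.map_apply]
      rw [h3, Finset.smul_sum]
      refine Finset.sum_congr rfl fun t _ => ?_
      rw [Matrix.mul_smul, Matrix.smul_mul]
    simp_rw [h2]
    rw [Finset.sum_comm]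
    refine Finset.sum_congr rfl fun j _ => ?_
    rw [Matrix.mul_sum, Matrix.sum_mul]
  rw [h1]
  calc _ ≤ ∑ j, ((b j).L.map (algebraMap F E) * (∑ k, c k • (y k j).map (algebraMap F E)) *
        (b j).R.map (algebraMap F E)).rank := rank_sum_le _ _
    _ ≤ ∑ j, (b j).P.rank := by
      refine Finset.sum_le_sum fun j _ => ?_
      refine (Matrix.rank_mul_le_left _ _).trans ((Matrix.rank_mul_le_right _ _).trans ?_)
      exact (b j).isBlock.rank_le _ (fun k => hy1 k j) c
    _ ≤ r := hr

/-- One block. -/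
theorem certified_block {w : F} {S J : Submodule F (Matrix (Fin m) (Fin n) F)}
    {P : Matrix (Fin n) (Fin m) F} {A : Matrix (Fin m) (Fin n) F} (h : IsBlock w S J P A)
    (T : Set (Matrix (Fin m) (Fin n) F)) (hT : ∀ x ∈ T, x ∈ S) :
    Certified T P.rank (1 + m + n) := by
  refine ⟨Unit, inferInstance, fun _ => ⟨m, n, w, S, J, P, A, 1, 1, h⟩, ?_, by simp, by simp⟩
  intro x hx
  apply Submodule.mem_iSup_of_mem ()
  rw [Block.mem_space]
  exact ⟨x, hT x hx, by simp⟩

theorem Certified.mono {T T' : Set (Matrix (Fin m) (Fin n) F)} {r s r' s' : ℕ}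
    (h : Certified T r s) (hT : ∀ x ∈ T', x ∈ Submodule.span F T) (hr : r ≤ r') (hs : s ≤ s') :
    Certified T' r' s' := by
  obtain ⟨κ, i, b, h1, h2, h3⟩ := h
  refine ⟨κ, i, b, ?_, h2.trans hr, h3.trans hs⟩
  intro x hx
  exact (Submodule.span_le.2 fun y hy => h1 y hy) (hT x hx)

/-- Sums. -/
theorem Certified.add {T₁ T₂ T : Set (Matrix (Fin m) (Fin n) F)} {r₁ s₁ r₂ s₂ : ℕ}
    (h₁ : Certified T₁ r₁ s₁) (h₂ : Certified T₂ r₂ s₂)
    (hT : ∀ x ∈ T, ∃ y ∈ T₁, ∃ z ∈ T₂, x = y + z) : Certified T (r₁ + r₂) (s₁ + s₂) := by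
  obtain ⟨κ₁, i₁, b₁, h1, h2, h3⟩ := h₁
  obtain ⟨κ₂, i₂, b₂, h4, h5, h6⟩ := h₂
  refine ⟨κ₁ ⊕ κ₂, inferInstance, Sum.elim b₁ b₂, ?_, ?_, ?_⟩
  · intro x hx
    obtain ⟨y, hy, z, hz, rfl⟩ := hT x hx
    rw [iSup_sum]
    exact Submodule.add_mem_sup (h1 y hy) (h4 z hz)
  · rw [Fintype.sum_sum_type]
    exact Nat.add_le_add h2 h5
  · rw [Fintype.sum_sum_type]
    exact Nat.add_le_add h3 h6

/-- Lifts. -/
theorem Certified.lift {T : Set (Matrix (Fin p) (Fin q) F)} {r s : ℕ}
    (h : Certified T r s) (L : Matrix (Fin m) (Fin p) F) (R : Matrix (Fin q) (Fin n) F)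
    (T' : Set (Matrix (Fin m) (Fin n) F)) (hT : ∀ x ∈ T', ∃ y ∈ T, x = L * y * R) :
    Certified T' r s := by
  obtain ⟨κ, i, b, h1, h2, h3⟩ := h
  refine ⟨κ, i, fun j => ⟨(b j).p, (b j).q, (b j).w, (b j).S, (b j).J, (b j).P, (b j).A,
    L * (b j).L, (b j).R * R, (b j).isBlock⟩, ?_, h2, h3⟩
  intro x hx
  obtain ⟨y, hy, rfl⟩ := hT x hx
  obtain ⟨z, hz1, hz2⟩ := mem_iSup_space b y (h1 y hy)
  rw [hz2, Matrix.mul_sum, Matrix.sum_mul]
  refine Submodule.sum_mem _ fun j _ => Submodule.mem_iSup_of_mem j ?_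
  rw [Block.mem_space]
  exact ⟨z j, hz1 j, by simp only [Matrix.mul_assoc]⟩

/-- Finite sums. -/
theorem certified_sum {κ : Type} [Fintype κ] {T : κ → Set (Matrix (Fin m) (Fin n) F)}
    {r s : κ → ℕ} (h : ∀ j, Certified (T j) (r j) (s j)) (T' : Set (Matrix (Fin m) (Fin n) F))
    (hT : ∀ x ∈ T', ∃ j, x ∈ T j) : Certified T' (∑ j, r j) (∑ j, s j) := by
  classical
  choose κ' i b h1 h2 h3 using h
  refine ⟨(Σ j, κ' j), inferInstance, fun j => b j.1 j.2, ?_, ?_, ?_⟩
  · intro x hx
    obtain ⟨j, hj⟩ := hT x hx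
    rw [iSup_sigma]
    exact Submodule.mem_iSup_of_mem j (h1 j x hj)
  · rw [Fintype.sum_sigma]
    exact Finset.sum_le_sum fun j _ => h2 j
  · rw [Fintype.sum_sigma]
    exact Finset.sum_le_sum fun j _ => h3 j

end Pool.Agent.V7H19.JC
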