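import Pool.Agent.V7H19.JC.Regular

/-!
# Families with `x P x = φ(x) x`
-/

set_option autoImplicit false

namespace Pool.Agent.V7H19.JC

open Module Matrix

variable {F : Type*} [Field F] {m n : ℕ}

/-- Families `X v` with `X v P X v = φ v X v`. -/
theorem isBlock_clifford (h2 : (2 : F) ≠ 0) {V : Type*} [AddCommGroup V] [Module F V]
    (X : V →ₗ[F] Matrix (Fin m) (Fin n) F) (φ : V →ₗ[F] F) (P : Matrix (Fin n) (Fin m) F)
    (hX : ∀ v, X v * P * X v = φ v • X v) (u : V) (hu : φ u = 1) (hP : P * X u * P = P) :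
    IsBlock (2⁻¹ : F) (LinearMap.range X) (LinearMap.range X) P (X u) := by
  have hT : ∀ a b, X a * P * X b + X b * P * X a = φ a • X b + φ b • X a := by
    intro a b
    have h1 := hX (a + b)
    rw [map_add, map_add, Matrix.add_mul, Matrix.add_mul, Matrix.mul_add, Matrix.mul_add, hX, hX,
      add_smul, smul_add, smul_add] at h1
    have h3 : X a * P * X b + X b * P * X a = (φ a • X a + X a * P * X b +
        (X b * P * X a + φ b • X b)) - φ a • X a - φ b • X b := by abel
    rw [h3, h1]
    abel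
  refine ⟨hP, le_rfl, ?_, ?_⟩
  · rintro _ ⟨a, rfl⟩ _ ⟨b, rfl⟩
    have h3 : (1 - 2⁻¹ : F) = 2⁻¹ := by field_simp; norm_num
    rw [h3, ← smul_add, hT]
    exact Submodule.smul_mem _ _ (add_mem (Submodule.smul_mem _ _ ⟨a, rfl⟩)
      (Submodule.smul_mem _ _ ⟨b, rfl⟩))
  · rintro _ ⟨v, rfl⟩
    have h1 := hT u v
    rw [hu, one_smul] at h1
    have hA : X u * P * X u = X u := by rw [hX, hu, one_smul]
    have h3 : X v * P * X u = X v + φ v • X u - X u * P * X v := by
      rw [← h1]; abel
    have h4 : (1 - X u * P) * X v * (1 - P * X u) =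
        X v - X u * P * X v - X v * P * X u + X u * P * (X v * P * X u) := by
      simp only [Matrix.sub_mul, Matrix.mul_sub, Matrix.one_mul, Matrix.mul_one, Matrix.mul_assoc]
      abel
    rw [h4, h3, Matrix.mul_sub, Matrix.mul_add, Matrix.mul_smul, hA, ← Matrix.mul_assoc,
      ← Matrix.mul_assoc, hA]
    abel

theorem rank_clifford {V : Type*} [AddCommGroup V] [Module F V]
    (X : V →ₗ[F] Matrix (Fin m) (Fin n) F) (φ : V →ₗ[F] F) (P : Matrix (Fin n) (Fin m) F)
    (hX : ∀ v, X v * P * X v = φ v • X v) (u : V) (hu : φ u = 1) (hP : P * X u * P = P) :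
    (X u).rank = P.rank := by
  apply le_antisymm
  · have hA : X u * P * X u = X u := by rw [hX, hu, one_smul]
    rw [← hA]
    exact (Matrix.rank_mul_le_left _ _).trans (Matrix.rank_mul_le_right _ _)
  · conv_lhs => rw [← hP]
    exact (Matrix.rank_mul_le_left _ _).trans (Matrix.rank_mul_le_right _ _)

end Pool.Agent.V7H19.JC
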