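import Mathlib

/-!
# A sufficient condition for an upper bound of the rank of a single linear map
-/

set_option autoImplicit false

namespace Pool.Agent.V7H19.JC

open Module LinearMap

variable {K : Type*} [Field K] {V W : Type*} [AddCommGroup V] [Module K V] [AddCommGroup W] [Module K W]

/-- rank-nullity for a subspace: if `x` maps `U` into `B` then `rank x + dim U ≤ dim V + dim B` -/
theorem finrank_range_le [FiniteDimensional K V] [FiniteDimensional K W]
    (x : V →ₗ[K] W) (U : Submodule K V) (B : Submodule K W) (h : ∀ u ∈ U, x u ∈ B) :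
    finrank K (range x) + finrank K U ≤ finrank K V + finrank K B := by
  have h1 := LinearMap.finrank_range_add_finrank_ker (x.domRestrict U)
  have h2 := LinearMap.finrank_range_add_finrank_ker x
  have h3 : finrank K (range (x.domRestrict U)) ≤ finrank K B := by
    apply Submodule.finrank_mono
    rintro _ ⟨u, rfl⟩
    exact h u.1 u.2
  have h4 : finrank K (ker (x.domRestrict U)) ≤ finrank K (ker x) := by
    let f : ker (x.domRestrict U) →ₗ[K] ker x :=
      (U.subtype.comp (ker (x.domRestrict U)).subtype).codRestrict (ker x) (by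
        rintro ⟨u, hu⟩
        exact hu)
    apply LinearMap.finrank_le_finrank_of_injective (f := f)
    intro a b hab
    have := congrArg Subtype.val hab
    exact Subtype.ext (Subtype.ext this)
  omega

/-- **Core lemma.** -/
theorem core [FiniteDimensional K V] [FiniteDimensional K W]
    (x A : V →ₗ[K] W) (P : W →ₗ[K] V) (h : ∀ w, P (A (P w)) = P w)
    (hk : ∀ (k : ℕ) (v : V), A (P (x (((P ∘ₗ x) ^ k) (v - P (A v))))) =
      x (((P ∘ₗ x) ^ k) (v - P (A v)))) :
    finrank K (range x) ≤ finrank K (range P) := by
  set N : V →ₗ[K] V := LinearMap.id - P ∘ₗ A with hN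
  have hNv : ∀ v, N v = v - P (A v) := fun v => by simp [hN]
  set B : Submodule K W := ⨆ k : ℕ, range (x ∘ₗ ((P ∘ₗ x) ^ k) ∘ₗ N) with hB
  have hB1 : ∀ b ∈ B, A (P b) = b := by
    intro b hb
    refine Submodule.iSup_induction _ (motive := fun b => A (P b) = b) hb ?_ ?_ ?_
    · rintro k _ ⟨v, rfl⟩
      simp only [LinearMap.comp_apply, hNv]
      exact hk k v
    · simp
    · intro a b ha hb
      rw [map_add, map_add, ha, hb]
  have hB2 : ∀ b ∈ B, x (P b) ∈ B := by
    intro b hb
    refine Submodule.iSup_induction _ (motive := fun b => x (P b) ∈ B) hb ?_ ?_ ?_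
    · rintro k _ ⟨v, rfl⟩
      apply Submodule.mem_iSup_of_mem (k + 1)
      refine ⟨v, ?_⟩
      rw [pow_succ']
      rfl
    · simp
    · intro a b ha hb
      rw [map_add, map_add]
      exact add_mem ha hb
  have hB3 : ∀ v, P (A v) = 0 → x v ∈ B := by
    intro v hv
    apply Submodule.mem_iSup_of_mem 0
    refine ⟨v, ?_⟩
    simp [hNv, hv]
  set U : Submodule K V := B.map P ⊔ ker (P ∘ₗ A) with hU
  have hxU : ∀ u ∈ U, x u ∈ B := by
    intro u hu
    obtain ⟨a, ⟨b, hb, rfl⟩, c, hc, rfl⟩ := Submodule.mem_sup.1 hu
    rw [map_add]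
    exact add_mem (hB2 b hb) (hB3 c hc)
  have h1 := finrank_range_le x U B hxU
  have h2 : finrank K U = finrank K B + finrank K (ker (P ∘ₗ A)) := by
    have h3 := Submodule.finrank_sup_add_finrank_inf_eq (B.map P) (ker (P ∘ₗ A))
    have h4 : B.map P ⊓ ker (P ∘ₗ A) = ⊥ := by
      rw [eq_bot_iff]
      rintro _ ⟨⟨b, hb, rfl⟩, hc⟩
      have h5 : P (A (P b)) = 0 := hc
      rw [h] at h5
      simpa using h5
    have h5 : finrank K (B.map P) = finrank K B := by
      have h6 : Function.Injective (P.domRestrict B) := by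
        rw [injective_iff_map_eq_zero]
        rintro ⟨b, hb⟩ h7
        have h8 : P b = 0 := h7
        have h9 := hB1 b hb
        rw [h8, map_zero] at h9
        exact Subtype.ext h9.symm
      have h7 := LinearMap.finrank_range_of_inj h6
      rw [LinearMap.range_domRestrict] at h7
      exact h7
    rw [h4, finrank_bot, add_zero, h5] at h3
    exact h3
  have h3 := LinearMap.finrank_range_add_finrank_ker (P ∘ₗ A)
  have h4 : finrank K (range (P ∘ₗ A)) = finrank K (range P) := by
    have : range (P ∘ₗ A) = range P := by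
      apply le_antisymm
      · exact LinearMap.range_comp_le_range A P
      · rintro _ ⟨w, rfl⟩
        exact ⟨P w, h w⟩
    rw [this]
  omega

end Pool.Agent.V7H19.JC
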