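import Pool.Agent.V7H19.JC.Shadow
import Pool.Agent.V7H19.JC.Clifford

/-!
# Contractions of the exterior algebra
-/

set_option autoImplicit false

namespace Pool.Agent.V7H19.JC

open Finset Module

open scoped FinsetFamily

variable (F : Type*) [Field F] (n : ℕ)

/-- the sign of `j` relative to the set `T` -/
def sg (j : Fin n) (T : Finset (Fin n)) : F := (-1) ^ #{i ∈ T | i < j}

/-- The contraction with the `j`-th coordinate in the exterior algebra: `e_S ↦ ± e_{S \ j}`. -/
def contr (j : Fin n) : (Finset (Fin n) → F) →ₗ[F] (Finset (Fin n) → F) where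
  toFun ω T := if j ∈ T then 0 else sg F n j T * ω (insert j T)
  map_add' ω ω' := by
    ext T
    simp only [Pi.add_apply]
    split_ifs
    · simp
    · ring
  map_smul' c ω := by
    ext T
    simp only [Pi.smul_apply, smul_eq_mul, RingHom.id_apply]
    split_ifs
    · simp
    · ring

theorem contr_apply (j : Fin n) (ω : Finset (Fin n) → F) (T : Finset (Fin n)) :
    contr F n j ω T = if j ∈ T then 0 else sg F n j T * ω (insert j T) := rfl

theorem contr_of_mem {j : Fin n} {T : Finset (Fin n)} (h : j ∈ T) (ω : Finset (Fin n) → F) :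
    contr F n j ω T = 0 := by rw [contr_apply, if_pos h]

theorem contr_of_not_mem {j : Fin n} {T : Finset (Fin n)} (h : j ∉ T) (ω : Finset (Fin n) → F) :
    contr F n j ω T = sg F n j T * ω (insert j T) := by rw [contr_apply, if_neg h]

theorem sg_insert {i j : Fin n} {T : Finset (Fin n)} (hi : i ∉ T) :
    sg F n j (insert i T) = if i < j then - sg F n j T else sg F n j T := by
  unfold sg
  rw [Finset.filter_insert]
  split_ifs with h
  · rw [Finset.card_insert_of_notMem (by simp [hi]), pow_succ]
    ring
  · rfl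

theorem contr_contr_self (j : Fin n) (ω : Finset (Fin n) → F) :
    contr F n j (contr F n j ω) = 0 := by
  ext T
  by_cases h : j ∈ T
  · rw [contr_of_mem F n h]; rfl
  · rw [contr_of_not_mem F n h, contr_of_mem F n (Finset.mem_insert_self j T), mul_zero]; rfl

theorem contr_anti {i j : Fin n} (hij : i < j) (ω : Finset (Fin n) → F) :
    contr F n i (contr F n j ω) + contr F n j (contr F n i ω) = 0 := by
  ext T
  rw [Pi.add_apply, Pi.zero_apply]
  by_cases hi : i ∈ T
  · rw [contr_of_mem F n hi, zero_add]
    by_cases hj : j ∈ T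
    · rw [contr_of_mem F n hj]
    · rw [contr_of_not_mem F n hj, contr_of_mem F n (Finset.mem_insert_of_mem hi), mul_zero]
  · by_cases hj : j ∈ T
    · rw [contr_of_mem F n hj, add_zero, contr_of_not_mem F n hi,
        contr_of_mem F n (Finset.mem_insert_of_mem hj), mul_zero]
    · have h1 : j ∉ insert i T := by
        rw [Finset.mem_insert]; push Not; exact ⟨ne_of_gt hij, hj⟩
      have h2 : i ∉ insert j T := by
        rw [Finset.mem_insert]; push Not; exact ⟨ne_of_lt hij, hi⟩
      rw [contr_of_not_mem F n hi, contr_of_not_mem F n h1, contr_of_not_mem F n hj,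
        contr_of_not_mem F n h2, sg_insert F n hi, sg_insert F n hj, if_pos hij,
        if_neg (not_lt.2 hij.le), Finset.insert_comm i j T]
      ring

/-- Multiplication by the first basis vector. -/
def wedge : (Finset (Fin (n + 1)) → F) →ₗ[F] (Finset (Fin (n + 1)) → F) where
  toFun ω T := if 0 ∈ T then ω (T.erase 0) else 0
  map_add' ω ω' := by
    ext T
    simp only [Pi.add_apply]
    split_ifs <;> simp
  map_smul' c ω := by
    ext T
    simp only [Pi.smul_apply, smul_eq_mul, RingHom.id_apply]
    split_ifs <;> simp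

theorem wedge_of_mem {T : Finset (Fin (n + 1))} (h : 0 ∈ T) (ω : Finset (Fin (n + 1)) → F) :
    wedge F n ω T = ω (T.erase 0) := if_pos h

theorem wedge_of_not_mem {T : Finset (Fin (n + 1))} (h : 0 ∉ T) (ω : Finset (Fin (n + 1)) → F) :
    wedge F n ω T = 0 := if_neg h

theorem wedge_wedge (ω : Finset (Fin (n + 1)) → F) : wedge F n (wedge F n ω) = 0 := by
  ext T
  by_cases h : 0 ∈ T
  · rw [wedge_of_mem F n h, wedge_of_not_mem F n (Finset.notMem_erase 0 T)]; rfl
  · rw [wedge_of_not_mem F n h]; rfl

theorem sg_zero (T : Finset (Fin (n + 1))) : sg F (n + 1) 0 T = 1 := by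
  simp [sg]

theorem contr_wedge_zero (ω : Finset (Fin (n + 1)) → F) :
    contr F (n + 1) 0 (wedge F n ω) + wedge F n (contr F (n + 1) 0 ω) = ω := by
  ext T
  rw [Pi.add_apply]
  by_cases h : 0 ∈ T
  · rw [contr_of_mem _ _ h, wedge_of_mem _ _ h, contr_of_not_mem _ _ (Finset.notMem_erase 0 T),
      Finset.insert_erase h, sg_zero]
    ring
  · rw [contr_of_not_mem _ _ h, wedge_of_not_mem _ _ h, wedge_of_mem _ _ (Finset.mem_insert_self 0 T),
      Finset.erase_insert h, sg_zero]
    ring

theorem contr_wedge {j : Fin (n + 1)} (hj : j ≠ 0) (ω : Finset (Fin (n + 1)) → F) :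
    contr F (n + 1) j (wedge F n ω) + wedge F n (contr F (n + 1) j ω) = 0 := by
  ext T
  rw [Pi.add_apply, Pi.zero_apply]
  by_cases h : 0 ∈ T
  · rw [wedge_of_mem _ _ h]
    by_cases h1 : j ∈ T
    · rw [contr_of_mem _ _ h1, contr_of_mem _ _ (Finset.mem_erase.2 ⟨hj, h1⟩), add_zero]
    · have h2 : j ∉ T.erase 0 := fun h3 => h1 (Finset.mem_of_mem_erase h3)
      rw [contr_of_not_mem _ _ h1, contr_of_not_mem _ _ h2,
        wedge_of_mem _ _ (Finset.mem_insert_of_mem h)]
      have h3 : sg F (n + 1) j T = - sg F (n + 1) j (T.erase 0) := by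
        conv_lhs => rw [← Finset.insert_erase h]
        rw [sg_insert _ _ (Finset.notMem_erase 0 T), if_pos (Fin.pos_iff_ne_zero.2 hj)]
      have h4 : (insert j T).erase 0 = insert j (T.erase 0) := Finset.erase_insert_of_ne hj
      rw [h3, h4]
      ring
  · rw [wedge_of_not_mem _ _ h, add_zero]
    by_cases h1 : j ∈ T
    · rw [contr_of_mem _ _ h1]
    · have h2 : 0 ∉ insert j T := by
        rw [Finset.mem_insert]; push Not; exact ⟨hj.symm, h⟩
      rw [contr_of_not_mem _ _ h1, wedge_of_not_mem _ _ h2, mul_zero]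

/-- The contraction with the linear form `v`. -/
def con : (Fin n → F) →ₗ[F] ((Finset (Fin n) → F) →ₗ[F] (Finset (Fin n) → F)) where
  toFun v := ∑ j, v j • contr F n j
  map_add' v w := by
    simp only [Pi.add_apply, add_smul, Finset.sum_add_distrib]
  map_smul' c v := by
    simp only [Pi.smul_apply, smul_eq_mul, mul_smul, Finset.smul_sum, RingHom.id_apply]

theorem con_apply (v : Fin n → F) (ω : Finset (Fin n) → F) :
    con F n v ω = ∑ j, v j • contr F n j ω := by
  simp [con, LinearMap.sum_apply]

theorem contr_con (v : Fin n → F) (i : Fin n) (ω : Finset (Fin n) → F) :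
    contr F n i (con F n v ω) + con F n v (contr F n i ω) = 0 := by
  rw [con_apply, con_apply, map_sum, ← Finset.sum_add_distrib]
  apply Finset.sum_eq_zero
  intro j _
  rw [map_smul, ← smul_add]
  rcases lt_trichotomy i j with h | h | h
  · rw [contr_anti F n h, smul_zero]
  · subst h
    rw [contr_contr_self, add_zero, smul_zero]
  · rw [add_comm, contr_anti F n h, smul_zero]

theorem con_con (h2 : (2 : F) ≠ 0) (v : Fin n → F) (ω : Finset (Fin n) → F) :
    con F n v (con F n v ω) = 0 := by
  have h : con F n v (con F n v ω) = - con F n v (con F n v ω) := by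
    conv_lhs => rw [con_apply]
    rw [con_apply F n v ω, map_sum, ← Finset.sum_neg_distrib]
    rw [← con_apply F n v ω]
    refine Finset.sum_congr rfl fun j _ => ?_
    rw [map_smul, ← smul_neg]
    congr 1
    exact eq_neg_of_add_eq_zero_left (contr_con F n v j ω)
  have h3 : (2 : F) • con F n v (con F n v ω) = 0 := by
    rw [two_smul]
    nth_rewrite 2 [h]
    rw [add_neg_cancel]
  exact (smul_eq_zero.1 h3).resolve_left h2

theorem con_wedge (v : Fin (n + 1) → F) (ω : Finset (Fin (n + 1)) → F) :
    con F (n + 1) v (wedge F n ω) + wedge F n (con F (n + 1) v ω) = v 0 • ω := by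
  rw [con_apply, con_apply, map_sum, ← Finset.sum_add_distrib,
    Finset.sum_eq_single (0 : Fin (n + 1))]
  · rw [map_smul, ← smul_add, contr_wedge_zero]
  · intro j _ hj
    rw [map_smul, ← smul_add, contr_wedge F n hj, smul_zero]
  · simp

/-- the binary number of a set -/
def key (S : Finset (Fin n)) : ℕ := ∑ i ∈ S, 2 ^ (i : ℕ)

theorem key_injective : Function.Injective (key n) := by
  intro S T h
  have h1 := @Finset.geomSum_injective 2 le_rfl (S.map Fin.valEmbedding) (T.map Fin.valEmbedding)
    (by simpa [key, Finset.sum_map] using h)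
  exact Finset.map_injective _ h1

theorem key_insert {j : Fin n} {T : Finset (Fin n)} (h : j ∉ T) :
    key n (insert j T) = 2 ^ (j : ℕ) + key n T := Finset.sum_insert h

/-- **No space is shrunk much by all contractions.** -/
theorem finrank_le_of_contr (U W : Submodule F (Finset (Fin n) → F))
    (h : ∀ j, ∀ ω ∈ U, contr F n j ω ∈ W) :
    finrank F U ≤ finrank F W + n.choose (n / 2) := by
  have h1 : ∂ (leads (key n) U) ⊆ leads (key n) W := by
    intro T hT
    rw [Finset.mem_shadow_iff] at hT
    obtain ⟨S, hS, j, hj, rfl⟩ := hT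
    rw [mem_leads] at hS ⊢
    obtain ⟨ω, hω, hS1, hS2⟩ := hS
    have hkey : key n S = 2 ^ (j : ℕ) + key n (S.erase j) := by
      conv_lhs => rw [← Finset.insert_erase hj]
      exact key_insert n (Finset.notMem_erase j S)
    refine ⟨_, h j ω hω, ?_, ?_⟩
    · rw [contr_of_not_mem F n (Finset.notMem_erase j S), Finset.insert_erase hj]
      refine mul_ne_zero ?_ hS1
      unfold sg
      exact pow_ne_zero _ (neg_ne_zero.2 one_ne_zero)
    · intro T hT
      by_cases hjT : j ∈ T
      · exact contr_of_mem F n hjT ω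
      · rw [contr_of_not_mem F n hjT, hS2, mul_zero]
        rw [key_insert n hjT, hkey]
        omega
  calc finrank F U ≤ #(leads (key n) U) := finrank_le_leads _ _
    _ ≤ #(∂ (leads (key n) U)) + n.choose (n / 2) := card_le_card_shadow n _
    _ ≤ #(leads (key n) W) + n.choose (n / 2) := Nat.add_le_add_right (Finset.card_le_card h1) _
    _ ≤ finrank F W + n.choose (n / 2) :=
      Nat.add_le_add_right (leads_le_finrank _ (key_injective n) W) _

/-- the standard basis numbered by `Fin (2 ^ n)` -/
noncomputable def stdB : Basis (Fin (2 ^ n)) F (Finset (Fin n) → F) :=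
  (Pi.basisFun F (Finset (Fin n))).reindex (Fintype.equivFinOfCardEq (by simp))

/-- The matrices of the contractions. -/
noncomputable def conM : (Fin n → F) →ₗ[F] Matrix (Fin (2 ^ n)) (Fin (2 ^ n)) F :=
  (LinearMap.toMatrixAlgEquiv (stdB F n)).toLinearMap ∘ₗ con F n

theorem toM_mulVec (f : (Finset (Fin n) → F) →ₗ[F] (Finset (Fin n) → F))
    (ω : Finset (Fin n) → F) :
    Matrix.mulVec (LinearMap.toMatrixAlgEquiv (stdB F n) f) ((stdB F n).equivFun ω) =
      (stdB F n).equivFun (f ω) := by
  have := LinearMap.toMatrix_mulVec_repr (stdB F n) (stdB F n) f ω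
  exact this

/-- **The contractions of the exterior algebra**: the Jordan certificate is exact, but the
noncommutative rank is nearly twice the rank. -/
theorem ext_example (h2 : (2 : F) ≠ 0) :
    (∃ v, (conM F (n + 1) v).rank = 2 ^ n) ∧
    Certified (Set.range (conM F (n + 1))) (2 ^ n) (1 + 2 ^ (n + 1) + 2 ^ (n + 1)) ∧
    ∀ U W : Submodule F (Fin (2 ^ (n + 1)) → F),
      (∀ v, ∀ u ∈ U, Matrix.mulVec (conM F (n + 1) v) u ∈ W) →
      2 ^ (n + 1) ≤ finrank F W + (2 ^ (n + 1) - finrank F U) + (n + 1).choose ((n + 1) / 2) := by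
  set Φ := LinearMap.toMatrixAlgEquiv (stdB F (n + 1)) with hΦ
  let P : Matrix (Fin (2 ^ (n + 1))) (Fin (2 ^ (n + 1))) F := Φ (wedge F n)
  have hX : ∀ v, conM F (n + 1) v = Φ (con F (n + 1) v) := fun v => rfl
  have hPP : P * P = 0 := by
    rw [← map_mul]
    have : wedge F n * wedge F n = 0 := LinearMap.ext fun ω => wedge_wedge F n ω
    rw [this, map_zero]
  have hXX : ∀ v, conM F (n + 1) v * conM F (n + 1) v = 0 := by
    intro v
    rw [hX, ← map_mul]
    have : con F (n + 1) v * con F (n + 1) v = 0 :=
      LinearMap.ext fun ω => con_con F (n + 1) h2 v ω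
    rw [this, map_zero]
  have hXP : ∀ v : Fin (n + 1) → F, conM F (n + 1) v * P + P * conM F (n + 1) v = v 0 • 1 := by
    intro v
    rw [hX, ← map_mul, ← map_mul, ← map_add]
    have : con F (n + 1) v * wedge F n + wedge F n * con F (n + 1) v = v 0 • 1 :=
      LinearMap.ext fun ω => con_wedge F n v ω
    rw [this, map_smul, map_one]
  have hXPX : ∀ v : Fin (n + 1) → F, conM F (n + 1) v * P * conM F (n + 1) v =
      (LinearMap.proj (0 : Fin (n + 1)) : (Fin (n + 1) → F) →ₗ[F] F) v • conM F (n + 1) v := by
    intro v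
    have h1 : conM F (n + 1) v * P = v 0 • 1 - P * conM F (n + 1) v := by
      rw [← hXP v]; abel
    rw [h1, Matrix.sub_mul, Matrix.mul_assoc, hXX, Matrix.mul_zero, sub_zero, Matrix.smul_mul,
      Matrix.one_mul]
    rfl
  let u : Fin (n + 1) → F := Pi.single 0 1
  have hu : (LinearMap.proj (0 : Fin (n + 1)) : (Fin (n + 1) → F) →ₗ[F] F) u = 1 := by
    simp [u]
  have hPu : P * conM F (n + 1) u * P = P := by
    have h1 : P * conM F (n + 1) u = 1 - conM F (n + 1) u * P := by
      have := hXP u
      have h3 : u 0 = 1 := by simp [u]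
      rw [h3, one_smul] at this
      rw [← this]; abel
    rw [h1, Matrix.sub_mul, Matrix.one_mul, Matrix.mul_assoc, hPP, Matrix.mul_zero, sub_zero]
  have hrank : P.rank = 2 ^ n := by
    have h1 : P.rank + P.rank ≤ 2 ^ (n + 1) := by
      have := Matrix.rank_add_rank_le_card_of_mul_eq_zero hPP
      simpa using this
    have h3 : 2 ^ (n + 1) ≤ P.rank + P.rank := by
      have h4 := hXP u
      have h5 : u 0 = 1 := by simp [u]
      rw [h5, one_smul] at h4
      have h6 : (1 : Matrix (Fin (2 ^ (n + 1))) (Fin (2 ^ (n + 1))) F).rank = 2 ^ (n + 1) := by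
        rw [Matrix.rank_one, Fintype.card_fin]
      calc 2 ^ (n + 1) = (conM F (n + 1) u * P + P * conM F (n + 1) u).rank := by rw [h4, h6]
        _ ≤ P.rank + P.rank := (rank_add_le' _ _).trans
          (Nat.add_le_add (Matrix.rank_mul_le_right _ _) (Matrix.rank_mul_le_left _ _))
    have h7 : 2 ^ (n + 1) = 2 ^ n * 2 := pow_succ 2 n
    omega
  have hblock := isBlock_clifford h2 (conM F (n + 1)) _ P hXPX u hu hPu
  refine ⟨⟨u, ?_⟩, ?_, ?_⟩
  · rw [rank_clifford (conM F (n + 1)) _ P hXPX u hu hPu, hrank]
  · have := certified_block hblock (Set.range (conM F (n + 1))) (by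
      rintro _ ⟨v, rfl⟩
      exact ⟨v, rfl⟩)
    rwa [hrank] at this
  · intro U W hUW
    let e := (stdB F (n + 1)).equivFun
    have h3 := finrank_le_of_contr F (n + 1) (U.comap e.toLinearMap) (W.comap e.toLinearMap) (by
      intro j ω hω
      rw [Submodule.mem_comap] at hω ⊢
      have h4 := hUW (Pi.single j 1) _ hω
      have h5 : conM F (n + 1) (Pi.single j 1) = Φ (contr F (n + 1) j) := by
        rw [hX]
        congr 1
        apply LinearMap.ext
        intro ω
        rw [con_apply, Finset.sum_eq_single j]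
        · simp
        · intro i _ hi
          rw [Pi.single_eq_of_ne hi, zero_smul]
        · simp
      rw [h5] at h4
      have h6 := toM_mulVec F (n + 1) (contr F (n + 1) j) ω
      change e (contr F (n + 1) j ω) ∈ W
      rw [← h6]
      exact h4)
    have hfr : ∀ Z : Submodule F (Fin (2 ^ (n + 1)) → F),
        finrank F (Z.comap e.toLinearMap) = finrank F Z := by
      intro Z
      have h8 : Z.comap e.toLinearMap = Z.map e.symm.toLinearMap :=
        Submodule.comap_equiv_eq_map_symm e Z
      rw [h8]
      exact LinearEquiv.finrank_map_eq e.symm Z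
    rw [hfr, hfr] at h3
    have h7 : finrank F U ≤ 2 ^ (n + 1) := by
      have := Submodule.finrank_le U
      simpa using this
    omega

end Pool.Agent.V7H19.JC
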