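import Pool.Agent.V7H19.JC.Core

/-!
# Jordan blocks over a field and their base change
-/

set_option autoImplicit false

namespace Pool.Agent.V7H19.JC

open Module Matrix

variable {F : Type*} [Field F] {m n p q : ℕ}

/-- One block of a Jordan certificate. -/
def IsBlock (w : F) (S J : Submodule F (Matrix (Fin p) (Fin q) F)) (P : Matrix (Fin q) (Fin p) F)
    (A : Matrix (Fin p) (Fin q) F) : Prop :=
  P * A * P = P ∧ S ≤ J ∧
    (∀ x ∈ S, ∀ y ∈ J, (1 - w) • (y * P * x) + w • (x * P * y) ∈ J) ∧
    ∀ y ∈ J, (1 - A * P) * y * (1 - P * A) = 0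

/-- The rank bound for a single matrix. -/
theorem rank_le_of_powers (x A : Matrix (Fin p) (Fin q) F) (P : Matrix (Fin q) (Fin p) F)
    (h : P * A * P = P)
    (hk : ∀ k : ℕ, (1 - A * P) * (x * (P * x) ^ k) * (1 - P * A) = 0) : x.rank ≤ P.rank := by
  have h1 := core (K := F) (V := Fin q → F) (W := Fin p → F) x.mulVecLin A.mulVecLin P.mulVecLin
    (by
      intro w
      simp only [Matrix.mulVecLin_apply, Matrix.mulVec_mulVec]
      rw [← Matrix.mul_assoc, h])
    (by
      intro k v
      have h2 : ∀ k : ℕ, ∀ v, ((P.mulVecLin ∘ₗ x.mulVecLin) ^ k) v = ((P * x) ^ k) *ᵥ v := by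
        intro k
        induction k with
        | zero => intro v; simp
        | succ k ih =>
          intro v
          rw [pow_succ', pow_succ', Module.End.mul_apply, ih]
          simp [Matrix.mulVec_mulVec, Matrix.mul_assoc]
      have h3 := congrArg (fun M : Matrix (Fin p) (Fin q) F => M *ᵥ v) (hk k)
      simp only [Matrix.zero_mulVec] at h3
      rw [h2]
      have h4 : v - P.mulVecLin (A.mulVecLin v) = (1 - P * A) *ᵥ v := by
        rw [Matrix.sub_mulVec, Matrix.one_mulVec]
        simp [Matrix.mulVec_mulVec]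
      rw [h4]
      rw [← Matrix.mulVec_mulVec, ← Matrix.mulVec_mulVec, Matrix.sub_mulVec, Matrix.one_mulVec] at h3
      simp only [Matrix.mulVecLin_apply]
      rw [← Matrix.mulVec_mulVec, ← Matrix.mulVec_mulVec] at h3
      exact (sub_eq_zero.1 h3).symm)
  exact h1

/-- A single element: `x` in `J`, and `J` stable under `y ↦ (1-w) y P x + w x P y`. -/
theorem rank_le_of_stable (w : F) (J : Submodule F (Matrix (Fin p) (Fin q) F))
    (x A : Matrix (Fin p) (Fin q) F) (P : Matrix (Fin q) (Fin p) F)
    (h : P * A * P = P) (hx : x ∈ J)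
    (hJ : ∀ y ∈ J, (1 - w) • (y * P * x) + w • (x * P * y) ∈ J)
    (hc : ∀ y ∈ J, (1 - A * P) * y * (1 - P * A) = 0) : x.rank ≤ P.rank := by
  have hm : ∀ k : ℕ, x * (P * x) ^ k ∈ J := by
    intro k
    induction k with
    | zero => simpa using hx
    | succ k ih =>
      have h1 := hJ _ ih
      have h2 : x * (P * x) ^ k * P * x = x * (P * x) ^ (k + 1) := by
        rw [pow_succ]
        simp only [Matrix.mul_assoc]
      have h3 : x * P * (x * (P * x) ^ k) = x * (P * x) ^ (k + 1) := by
        rw [pow_succ']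
        simp only [Matrix.mul_assoc]
      rw [h2, h3, ← add_smul] at h1
      simpa using h1
  exact rank_le_of_powers x A P h fun k => hc _ (hm k)

end Pool.Agent.V7H19.JC
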