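import Pool.Agent.V7H19.JC.Skew

/-!
# Spaces closed under `x ↦ x y x`
-/

set_option autoImplicit false

namespace Pool.Agent.V7H19.JC

open Module Matrix Polynomial

variable {F : Type*} [Field F] {m n p q : ℕ}

/-- the block of a space closed under `x ↦ x y x` -/
theorem isBlock_of_closed (h2 : (2 : F) ≠ 0) (S : Submodule F (Matrix (Fin m) (Fin n) F))
    (A : Matrix (Fin m) (Fin n) F) (hA : A ∈ S) (y : Matrix (Fin n) (Fin m) F)
    (hy : A * y * A = A) (hS : ∀ x ∈ S, x * y * x ∈ S)
    (h1 : ∀ x ∈ S, (1 - A * y) * x * (1 - y * A) = 0) :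
    IsBlock (2⁻¹ : F) S S (y * A * y) A := by
  have hT : ∀ x ∈ S, ∀ z ∈ S, x * y * z + z * y * x ∈ S := by
    intro x hx z hz
    have h3 := sub_mem (sub_mem (hS _ (add_mem hx hz)) (hS x hx)) (hS z hz)
    convert h3 using 1
    simp only [Matrix.add_mul, Matrix.mul_add]
    abel
  have hQ : ∀ x ∈ S, x * (y * A * y) * x ∈ S := by
    intro x hx
    have h3 := hT x hx _ (hT x hx A hA)
    have h4 := hT _ (hS x hx) A hA
    have h5 := sub_mem h3 h4
    have h6 : (2 : F)⁻¹ • ((x * y * (x * y * A + A * y * x) + (x * y * A + A * y * x) * y * x) -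
        (x * y * x * y * A + A * y * (x * y * x))) = x * (y * A * y) * x := by
      have h7 : (x * y * (x * y * A + A * y * x) + (x * y * A + A * y * x) * y * x) -
        (x * y * x * y * A + A * y * (x * y * x)) = (2 : F) • (x * (y * A * y) * x) := by
        rw [two_smul]
        simp only [Matrix.add_mul, Matrix.mul_add, Matrix.mul_assoc]
        abel
      rw [h7, smul_smul, inv_mul_cancel₀ h2, one_smul]
    rw [← h6]
    exact Submodule.smul_mem _ _ h5
  have hAP : A * (y * A * y) = A * y := by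
    rw [← Matrix.mul_assoc, ← Matrix.mul_assoc, hy]
  have hPA : y * A * y * A = y * A := by
    rw [Matrix.mul_assoc, Matrix.mul_assoc, ← Matrix.mul_assoc A y A, hy]
  refine ⟨?_, le_rfl, ?_, ?_⟩
  · rw [hPA]
    simp only [← Matrix.mul_assoc]
    rw [hPA]
  · intro x hx z hz
    have h3 : (1 - 2⁻¹ : F) = 2⁻¹ := by field_simp; norm_num
    rw [h3, ← smul_add]
    apply Submodule.smul_mem
    have h4 := sub_mem (sub_mem (hQ _ (add_mem hx hz)) (hQ x hx)) (hQ z hz)
    convert h4 using 1
    simp only [Matrix.add_mul, Matrix.mul_add]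
    abel
  · intro x hx
    rw [hAP, hPA]
    exact h1 x hx

/-- first-order variation: the rank grows -/
theorem exists_rank_lt [Infinite F] (A x : Matrix (Fin m) (Fin n) F) (v : Fin n → F)
    (hv : A *ᵥ v = 0) (hx : ∀ w, x *ᵥ v ≠ A *ᵥ w) : ∃ t : F, A.rank < (A + t • x).rank := by
  classical
  let M : F → Matrix (Fin m) (Fin n ⊕ Unit) F := fun t =>
    Matrix.fromCols (A + t • x) (Matrix.of fun i _ => (x *ᵥ v) i)
  have hM : ∀ (t : F) (w : Fin n ⊕ Unit → F), M t *ᵥ w = (A + t • x) *ᵥ (fun j => w (Sum.inl j)) +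
      w (Sum.inr ()) • (x *ᵥ v) := by
    intro t w
    ext i
    simp only [M, Matrix.mulVec, dotProduct, Fintype.sum_sum_type, Matrix.fromCols_apply_inl,
      Matrix.fromCols_apply_inr, Pi.add_apply, Pi.smul_apply, smul_eq_mul, Matrix.of_apply]
    simp [mul_comm]
  have h0 : A.rank < (M 0).rank := by
    apply Submodule.finrank_lt_finrank_of_lt
    constructor
    · rintro _ ⟨w, rfl⟩
      refine ⟨Sum.elim w 0, ?_⟩
      rw [Matrix.mulVecLin_apply, hM]
      simp
    · intro h
      have h1 : x *ᵥ v ∈ LinearMap.range (M 0).mulVecLin := by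
        refine ⟨Sum.elim 0 1, ?_⟩
        rw [Matrix.mulVecLin_apply, hM]
        simp [Matrix.mulVec_zero, show (fun _ : Fin n => (0 : F)) = 0 from rfl]
      obtain ⟨w, hw⟩ := h h1
      exact hx w hw.symm
  obtain ⟨r, c, hrc⟩ := exists_minor (M 0) _ rfl
  let N : Matrix (Fin m) (Fin n ⊕ Unit) F := Matrix.fromCols x 0
  have hN : ∀ t, M t = M 0 + t • N := by
    intro t
    ext i j
    rcases j with j | j
    · simp [M, N, Matrix.fromCols_apply_inl]
    · simp [M, N, Matrix.fromCols_apply_inr]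
  let Q : F[X] := (((M 0).submatrix r c).map C + (X : F[X]) • (N.submatrix r c).map C).det
  have hQ : ∀ t, Q.eval t = ((M t).submatrix r c).det := by
    intro t
    rw [← Polynomial.coe_evalRingHom, RingHom.map_det]
    congr 1
    rw [hN t]
    ext i j
    simp only [RingHom.mapMatrix_apply, Matrix.map_apply, Matrix.add_apply, Matrix.smul_apply,
      Matrix.submatrix_apply, smul_eq_mul, Polynomial.coe_evalRingHom, Polynomial.eval_add,
      Polynomial.eval_mul, Polynomial.eval_C, Polynomial.eval_X]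
  have hQ0 : X * Q ≠ 0 := by
    apply mul_ne_zero Polynomial.X_ne_zero
    intro h
    apply hrc
    rw [← hQ 0, h, Polynomial.eval_zero]
  obtain ⟨t, ht⟩ : ∃ t, (X * Q).eval t ≠ 0 := by
    by_contra hcon
    push Not at hcon
    apply hQ0
    apply Polynomial.funext
    intro t
    rw [hcon t, Polynomial.eval_zero]
  rw [Polynomial.eval_mul, Polynomial.eval_X] at ht
  have ht0 : t ≠ 0 := fun h => ht (by rw [h, zero_mul])
  have ht1 : ((M t).submatrix r c).det ≠ 0 := by
    rw [← hQ t]
    exact right_ne_zero_of_mul ht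
  refine ⟨t, h0.trans_le ?_⟩
  refine (le_rank_of_minor (M t) _ r c ht1).trans ?_
  apply Submodule.finrank_mono
  rintro _ ⟨w, rfl⟩
  refine ⟨(fun j => w (Sum.inl j)) + (w (Sum.inr ()) * t⁻¹) • v, ?_⟩
  rw [Matrix.mulVecLin_apply, Matrix.mulVecLin_apply, hM, Matrix.mulVec_add, Matrix.mulVec_smul,
    Matrix.add_mulVec _ _ v, hv, zero_add, Matrix.smul_mulVec, smul_smul, mul_assoc,
    inv_mul_cancel₀ ht0, mul_one]

/-- **Jordan-closed spaces**: the first order test is exact. -/
theorem regular_tfae [Infinite F] (h2 : (2 : F) ≠ 0) (S : Submodule F (Matrix (Fin m) (Fin n) F))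
    (A : Matrix (Fin m) (Fin n) F) (hA : A ∈ S) (y : Matrix (Fin n) (Fin m) F)
    (hy : A * y * A = A) (hS : ∀ x ∈ S, x * y * x ∈ S) :
    List.TFAE [∀ x ∈ S, ∀ v, A *ᵥ v = 0 → ∃ w, x *ᵥ v = A *ᵥ w,
      ∀ x ∈ S, x.rank ≤ A.rank,
      Certified (S : Set (Matrix (Fin m) (Fin n) F)) A.rank (1 + m + n)] := by
  tfae_have 3 → 2 := by
    intro h x hx
    have h3 := h.rank_le (E := F) (κ := Unit) (fun _ => x) (fun _ => hx) (fun _ => 1)
    simpa using h3
  tfae_have 2 → 1 := by
    intro h x hx v hv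
    by_contra hcon
    push Not at hcon
    obtain ⟨t, ht⟩ := exists_rank_lt A x v hv hcon
    exact absurd (h _ (add_mem hA (Submodule.smul_mem _ t hx))) (not_le.2 ht)
  tfae_have 1 → 3 := by
    intro h
    have h1 : ∀ x ∈ S, (1 - A * y) * x * (1 - y * A) = 0 := by
      intro x hx
      have h3 : ∀ v, ((1 - A * y) * x * (1 - y * A)) *ᵥ v = 0 := by
        intro v
        have h4 : A *ᵥ ((1 - y * A) *ᵥ v) = 0 := by
          rw [Matrix.mulVec_mulVec, Matrix.mul_sub, Matrix.mul_one, ← Matrix.mul_assoc, hy,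
            sub_self, Matrix.zero_mulVec]
        obtain ⟨w, hw⟩ := h x hx _ h4
        rw [← Matrix.mulVec_mulVec, ← Matrix.mulVec_mulVec, hw, Matrix.mulVec_mulVec,
          Matrix.sub_mul, Matrix.one_mul, hy, sub_self, Matrix.zero_mulVec]
      apply Matrix.ext_of_mulVec_single
      intro j
      rw [h3, Matrix.zero_mulVec]
    refine (certified_block (isBlock_of_closed h2 S A hA y hy hS h1) (S : Set _)
      fun x hx => hx).mono (fun x hx => Submodule.subset_span hx) ?_ le_rfl
    exact (Matrix.rank_mul_le_left _ _).trans (Matrix.rank_mul_le_right _ _)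
  tfae_finish

end Pool.Agent.V7H19.JC
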