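import Mathlib

/-!
# The shadow of a set family and leading terms
-/

set_option autoImplicit false

namespace Pool.Agent.V7H19.JC

open Finset Module

open scoped FinsetFamily

/-- every family of subsets of an `n`-set loses at most the middle binomial coefficient when it is
replaced by its shadow -/
theorem card_le_card_shadow (n : ℕ) (𝒜 : Finset (Finset (Fin n))) :
    #𝒜 ≤ #(∂ 𝒜) + n.choose (n / 2) := by
  classical
  have h1 : ∀ k, k + 1 ≤ n → #(𝒜 # (k + 1)) * (k + 1) ≤ #(∂ (𝒜 # (k + 1))) * (n - k) := by
    intro k hk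
    have := Finset.local_lubell_yamamoto_meshalkin_inequality_mul (𝒜 := 𝒜 # (k + 1)) (r := k + 1)
      (Finset.sized_slice)
    rw [Fintype.card_fin] at this
    have h2 : n - (k + 1) + 1 = n - k := by omega
    rwa [h2] at this
  have hc : ∀ k, #(𝒜 # k) ≤ n.choose k := by
    intro k
    have : 𝒜 # k ⊆ Finset.powersetCard k univ := by
      intro s hs
      rw [Finset.mem_slice] at hs
      rw [Finset.mem_powersetCard]
      exact ⟨Finset.subset_univ _, hs.2⟩
    have h2 := Finset.card_le_card this
    rwa [Finset.card_powersetCard, Finset.card_univ, Fintype.card_fin] at h2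
  have hstep : ∀ m, m ≤ n → ∑ k ∈ range (m + 1), #(𝒜 # k) ≤
      ∑ k ∈ range m, #(∂ (𝒜 # (k + 1))) + n.choose (min m (n / 2)) := by
    intro m
    induction m with
    | zero =>
      intro _
      simpa using hc 0
    | succ m ih =>
      intro hm
      have h2 := ih (by omega)
      rw [Finset.sum_range_succ (fun k => #(𝒜 # k)) (m + 1),
        Finset.sum_range_succ (fun k => #(∂ (𝒜 # (k + 1)))) m]
      have h3 : #(𝒜 # (m + 1)) + n.choose (min m (n / 2)) ≤
          #(∂ (𝒜 # (m + 1))) + n.choose (min (m + 1) (n / 2)) := by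
        have h4 := h1 m hm
        by_cases h5 : m + 1 ≤ n / 2
        · rw [min_eq_left h5, min_eq_left (by omega)]
          have h6 := Nat.choose_succ_right_eq n m
          have h7 := hc (m + 1)
          generalize #(𝒜 # (m + 1)) = f at *
          generalize #(∂ (𝒜 # (m + 1))) = g at *
          generalize n.choose (m + 1) = c₁ at *
          generalize n.choose m = c₀ at *
          obtain ⟨b, hb⟩ : ∃ b, n - m = m + 1 + b := ⟨n - m - (m + 1), by omega⟩
          rw [hb] at h4 h6
          by_contra hcon
          push Not at hcon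
          obtain ⟨e, rfl⟩ : ∃ e, c₁ = f + e := ⟨c₁ - f, by omega⟩
          have h8 : g + e + 1 ≤ c₀ := by omega
          have h9 : (g + e + 1) * (m + 1 + b) ≤ c₀ * (m + 1 + b) := Nat.mul_le_mul_right _ h8
          nlinarith
        · rw [min_eq_right (by omega), min_eq_right (by omega)]
          have h6 : #(𝒜 # (m + 1)) * (m + 1) ≤ #(∂ (𝒜 # (m + 1))) * (m + 1) :=
            h4.trans (Nat.mul_le_mul_left _ (by omega))
          have h7 := Nat.le_of_mul_le_mul_right h6 (by omega)
          omega
      omega
  have h2 := hstep n le_rfl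
  have h3 : ∑ k ∈ range (n + 1), #(𝒜 # k) = #𝒜 := by
    have := Finset.sum_card_slice 𝒜
    rw [Fintype.card_fin] at this
    rw [← this]
    congr 1
    ext x
    simp
  have h4 : ∑ k ∈ range n, #(∂ (𝒜 # (k + 1))) ≤ #(∂ 𝒜) := by
    have h5 : ∑ k ∈ range n, #(∂ (𝒜 # (k + 1))) ≤ ∑ k ∈ range (n + 1), #((∂ 𝒜) # k) := by
      rw [Finset.sum_range_succ]
      refine (Finset.sum_le_sum fun k _ => ?_).trans (Nat.le_add_right _ _)
      apply Finset.card_le_card
      intro s hs
      rw [Finset.mem_shadow_iff] at hs
      obtain ⟨t, ht, a, ha, rfl⟩ := hs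
      rw [Finset.mem_slice] at ht ⊢
      refine ⟨Finset.erase_mem_shadow ht.1 ha, ?_⟩
      rw [Finset.card_erase_of_mem ha, ht.2]
      rfl
    refine h5.trans (le_of_eq ?_)
    have := Finset.sum_card_slice (∂ 𝒜)
    rw [Fintype.card_fin] at this
    rw [← this]
    congr 1
    ext x
    simp
  rw [h3, min_eq_right (by omega)] at h2
  omega

section lead

variable {F : Type*} [Field F] {I : Type*} [Fintype I]

/-- the leading positions of the elements of a subspace -/
noncomputable def leads (κ : I → ℕ) (U : Submodule F (I → F)) : Finset I := by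
  classical
  exact univ.filter fun S => ∃ ω ∈ U, ω S ≠ 0 ∧ ∀ T, κ S < κ T → ω T = 0

theorem mem_leads (κ : I → ℕ) (U : Submodule F (I → F)) (S : I) :
    S ∈ leads κ U ↔ ∃ ω ∈ U, ω S ≠ 0 ∧ ∀ T, κ S < κ T → ω T = 0 := by
  classical
  simp [leads]

theorem finrank_le_leads (κ : I → ℕ) (U : Submodule F (I → F)) : finrank F U ≤ #(leads κ U) := by
  classical
  let f : U →ₗ[F] ((leads κ U) → F) :=
    { toFun := fun ω S => ω.1 S.1
      map_add' := fun _ _ => rfl
      map_smul' := fun _ _ => rfl }
  have hf : Function.Injective f := by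
    rw [injective_iff_map_eq_zero]
    rintro ⟨ω, hω⟩ h
    by_contra hne
    have h1 : ∃ S, ω S ≠ 0 := by
      by_contra hcon
      push Not at hcon
      exact hne (Subtype.ext (funext hcon))
    obtain ⟨S, hS, hmax⟩ := Finset.exists_max_image (univ.filter fun S => ω S ≠ 0) κ
      (by obtain ⟨S, hS⟩ := h1; exact ⟨S, by simp [hS]⟩)
    rw [Finset.mem_filter] at hS
    have h2 : S ∈ leads κ U := by
      rw [mem_leads]
      refine ⟨ω, hω, hS.2, fun T hT => ?_⟩
      by_contra h3
      exact absurd (hmax T (by simp [h3])) (not_le.2 hT)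
    exact hS.2 (congrFun h ⟨S, h2⟩)
  have := LinearMap.finrank_le_finrank_of_injective hf
  simpa using this

theorem leads_le_finrank (κ : I → ℕ) (hκ : Function.Injective κ) (W : Submodule F (I → F)) :
    #(leads κ W) ≤ finrank F W := by
  classical
  choose w hw1 hw2 hw3 using fun S : leads κ W => (mem_leads κ W S.1).1 S.2
  have hli : LinearIndependent F (fun S : leads κ W => (⟨w S, hw1 S⟩ : W)) := by
    rw [Fintype.linearIndependent_iff]
    intro c hc
    by_contra hcon
    push Not at hcon
    obtain ⟨S, hS, hmax⟩ := Finset.exists_max_image (univ.filter fun S : leads κ W => c S ≠ 0)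
      (fun S => κ S.1) (by obtain ⟨S, hS⟩ := hcon; exact ⟨S, by simp [hS]⟩)
    rw [Finset.mem_filter] at hS
    have h1 := congrFun (congrArg (W.subtype) hc) S.1
    rw [map_sum, Finset.sum_apply, Finset.sum_eq_single S] at h1
    · have h2 : c S * w S S.1 = 0 := h1
      exact (mul_ne_zero hS.2 (hw2 S)) h2
    · intro T _ hTS
      show c T * w T S.1 = 0
      by_cases hT : c T = 0
      · rw [hT, zero_mul]
      · rw [hw3 T S.1, mul_zero]
        refine lt_of_le_of_ne (hmax T (by simp [hT])) ?_
        intro h
        exact hTS (Subtype.ext (hκ h))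
    · simp
  have := hli.fintype_card_le_finrank
  simpa using this

end lead

end Pool.Agent.V7H19.JC
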