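import Pool.Agent.V7H19.JC.Cert

/-!
# Shrunk subspaces give Jordan certificates
-/

set_option autoImplicit false

namespace Pool.Agent.V7H19.JC

open Module Matrix

variable {F : Type*} [Field F] {m n p q : ℕ}

/-- The full matrix space. -/
theorem exists_top_block (p q : ℕ) : ∃ (P : Matrix (Fin q) (Fin p) F) (A : Matrix (Fin p) (Fin q) F),
    IsBlock (0 : F) ⊤ ⊤ P A := by
  rcases le_total p q with h | h
  · refine ⟨(1 : Matrix (Fin q) (Fin q) F).submatrix id (Fin.castLE h),
      (1 : Matrix (Fin q) (Fin q) F).submatrix (Fin.castLE h) id, ?_⟩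
    have h1 : (1 : Matrix (Fin q) (Fin q) F).submatrix (Fin.castLE h) id *
        (1 : Matrix (Fin q) (Fin q) F).submatrix id (Fin.castLE h) = 1 := by
      rw [← Matrix.submatrix_mul _ _ _ id _ Function.bijective_id, Matrix.one_mul,
        Matrix.submatrix_one _ (Fin.castLE_injective h)]
    refine ⟨?_, le_rfl, fun _ _ _ _ => trivial, fun y _ => ?_⟩
    · rw [Matrix.mul_assoc, h1, Matrix.mul_one]
    · rw [h1]; simp
  · refine ⟨(1 : Matrix (Fin p) (Fin p) F).submatrix (Fin.castLE h) id,
      (1 : Matrix (Fin p) (Fin p) F).submatrix id (Fin.castLE h), ?_⟩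
    have h1 : (1 : Matrix (Fin p) (Fin p) F).submatrix (Fin.castLE h) id *
        (1 : Matrix (Fin p) (Fin p) F).submatrix id (Fin.castLE h) = 1 := by
      rw [← Matrix.submatrix_mul _ _ _ id _ Function.bijective_id, Matrix.one_mul,
        Matrix.submatrix_one _ (Fin.castLE_injective h)]
    refine ⟨?_, le_rfl, fun _ _ _ _ => trivial, fun y _ => ?_⟩
    · rw [h1, Matrix.one_mul]
    · rw [h1]; simp

theorem certified_top (p q : ℕ) : Certified (F := F) (Set.univ : Set (Matrix (Fin p) (Fin q) F))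
    (min p q) (1 + p + q) := by
  obtain ⟨P, A, h⟩ := exists_top_block (F := F) p q
  refine (certified_block h Set.univ fun _ _ => trivial).mono (fun x _ => Submodule.subset_span trivial)
    ?_ le_rfl
  exact le_min (Matrix.rank_le_width P) (Matrix.rank_le_height P)

/-- a matrix the columns of which are a basis of `W` -/
theorem exists_cols (W : Submodule F (Fin m → F)) :
    ∃ L : Matrix (Fin m) (Fin (finrank F W)) F, (∀ v, L *ᵥ v ∈ W) ∧
      ∀ w ∈ W, ∃ v, L *ᵥ v = w := by
  let b := Module.finBasis F W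
  refine ⟨Matrix.of fun i j => (b j : Fin m → F) i, ?_, ?_⟩
  · intro v
    have : (Matrix.of fun i j => (b j : Fin m → F) i) *ᵥ v = ∑ j, v j • (b j : Fin m → F) := by
      ext i
      simp [Matrix.mulVec, dotProduct, mul_comm]
    rw [this]
    exact Submodule.sum_mem _ fun j _ => Submodule.smul_mem _ _ (b j).2
  · intro w hw
    refine ⟨fun j => b.repr ⟨w, hw⟩ j, ?_⟩
    have h1 : ∑ j, b.repr ⟨w, hw⟩ j • (b j : Fin m → F) = w := by
      have h2 := congrArg (W.subtype) (b.sum_repr ⟨w, hw⟩)
      rw [map_sum] at h2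
      exact h2
    refine Eq.trans ?_ h1
    ext i
    simp [Matrix.mulVec, dotProduct, mul_comm]

/-- `x = L y` for matrices `x` with range in `W` -/
theorem exists_factor {L : Matrix (Fin m) (Fin p) F} {W : Submodule F (Fin m → F)}
    (hL : ∀ w ∈ W, ∃ v, L *ᵥ v = w) (x : Matrix (Fin m) (Fin n) F) (hx : ∀ v, x *ᵥ v ∈ W) :
    ∃ y : Matrix (Fin p) (Fin n) F, x = L * y := by
  classical
  choose f hf using fun j : Fin n => hL (x *ᵥ Pi.single j 1) (hx _)
  refine ⟨Matrix.of fun i j => f j i, ?_⟩
  ext i j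
  have := congrFun (hf j) i
  simp only [Matrix.mulVec_single_one] at this
  rw [Matrix.mul_apply]
  exact this.symm

/-- Matrices with range in `W`. -/
theorem certified_range (W : Submodule F (Fin m → F)) :
    Certified {x : Matrix (Fin m) (Fin n) F | ∀ v, x *ᵥ v ∈ W} (finrank F W) (1 + m + n) := by
  obtain ⟨L, -, hL⟩ := exists_cols W
  have hW : finrank F W ≤ m := by
    have := Submodule.finrank_le W
    simpa using this
  refine ((certified_top (F := F) (finrank F W) n).lift L 1 {x | ∀ v, x *ᵥ v ∈ W} ?_).mono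
    (fun x hx => Submodule.subset_span hx) (min_le_left _ _) (by omega)
  intro x hx
  obtain ⟨y, hy⟩ := exists_factor hL x hx
  exact ⟨y, trivial, by rw [Matrix.mul_one]; exact hy⟩

/-- Matrices with row space in `W`. -/
theorem certified_rows (W : Submodule F (Fin n → F)) :
    Certified {x : Matrix (Fin m) (Fin n) F | ∀ v, xᵀ *ᵥ v ∈ W} (finrank F W) (1 + m + n) := by
  obtain ⟨L, -, hL⟩ := exists_cols W
  have hW : finrank F W ≤ n := by
    have := Submodule.finrank_le W
    simpa using this
  refine ((certified_top (F := F) m (finrank F W)).lift 1 Lᵀ {x | ∀ v, xᵀ *ᵥ v ∈ W} ?_).mono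
    (fun x hx => Submodule.subset_span hx) (min_le_right _ _) (by omega)
  intro x hx
  obtain ⟨y, hy⟩ := exists_factor hL xᵀ hx
  refine ⟨yᵀ, trivial, ?_⟩
  rw [Matrix.one_mul, ← Matrix.transpose_mul, ← hy, Matrix.transpose_transpose]

/-- a projection along `U` through a space of dimension `n - dim U` -/
theorem exists_proj (U : Submodule F (Fin n → F)) : ∃ (R' : Matrix (Fin n) (Fin (n - finrank F U)) F)
    (R : Matrix (Fin (n - finrank F U)) (Fin n) F), (∀ u ∈ U, R *ᵥ u = 0) ∧
    ∀ v, v - R' *ᵥ (R *ᵥ v) ∈ U := by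
  have h1 : finrank F ((Fin n → F) ⧸ U) = n - finrank F U := by
    have := Submodule.finrank_quotient_add_finrank U
    rw [Module.finrank_fin_fun] at this
    omega
  let e : ((Fin n → F) ⧸ U) ≃ₗ[F] (Fin (n - finrank F U) → F) :=
    LinearEquiv.ofFinrankEq _ _ (by rw [h1, Module.finrank_fin_fun])
  let g : (Fin n → F) →ₗ[F] (Fin (n - finrank F U) → F) := e.toLinearMap ∘ₗ U.mkQ
  have hg : LinearMap.range g = ⊤ := by
    rw [LinearMap.range_eq_top]
    exact e.surjective.comp (Submodule.mkQ_surjective U)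
  obtain ⟨s, hs⟩ := LinearMap.exists_rightInverse_of_surjective g hg
  have hker : ∀ v, g v = 0 ↔ v ∈ U := by
    intro v
    simp [g, Submodule.Quotient.mk_eq_zero]
  refine ⟨LinearMap.toMatrix' s, LinearMap.toMatrix' g, ?_, ?_⟩
  · intro u hu
    rw [LinearMap.toMatrix'_mulVec]
    exact (hker u).2 hu
  · intro v
    rw [LinearMap.toMatrix'_mulVec, LinearMap.toMatrix'_mulVec]
    rw [← hker, map_sub]
    have := LinearMap.congr_fun hs (g v)
    simp only [LinearMap.comp_apply, LinearMap.id_apply] at this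
    rw [this, sub_self]

/-- Matrices which vanish on `U`. -/
theorem certified_ker (U : Submodule F (Fin n → F)) :
    Certified {x : Matrix (Fin m) (Fin n) F | ∀ u ∈ U, x *ᵥ u = 0} (n - finrank F U) (1 + m + n) := by
  obtain ⟨R', R, -, hR⟩ := exists_proj U
  refine ((certified_top (F := F) m (n - finrank F U)).lift 1 R {x | ∀ u ∈ U, x *ᵥ u = 0} ?_).mono
    (fun x hx => Submodule.subset_span hx) (min_le_right _ _) (by omega)
  intro x hx
  refine ⟨x * R', trivial, ?_⟩
  rw [Matrix.one_mul]
  apply Matrix.ext_of_mulVec_single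
  intro j
  have h1 := hx _ (hR (Pi.single j 1))
  rw [Matrix.mulVec_sub, sub_eq_zero] at h1
  rw [h1]
  simp only [Matrix.mulVec_mulVec, Matrix.mul_assoc]

/-- **Shrunk subspaces.** -/
theorem certified_shrunk (T : Set (Matrix (Fin m) (Fin n) F)) (U : Submodule F (Fin n → F))
    (W : Submodule F (Fin m → F)) (h : ∀ x ∈ T, ∀ u ∈ U, x *ᵥ u ∈ W) :
    Certified T (finrank F W + (n - finrank F U)) (2 + 2 * m + 2 * n) := by
  refine ((certified_range W).add (certified_ker U) ?_).mono (T := T)
    (fun x hx => Submodule.subset_span hx) le_rfl (by omega)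
  intro x hx
  obtain ⟨R', R, hR1, hR⟩ := exists_proj U
  refine ⟨x - x * R' * R, ?_, x * R' * R, ?_, by abel⟩
  · intro v
    have h1 := h x hx _ (hR v)
    rw [Matrix.mulVec_sub, Matrix.mulVec_mulVec, Matrix.mulVec_mulVec] at h1
    rw [Matrix.sub_mulVec]
    simpa only [Matrix.mul_assoc] using h1
  · intro u hu
    rw [← Matrix.mulVec_mulVec, hR1 u hu, Matrix.mulVec_zero]

end Pool.Agent.V7H19.JC
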