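import Pool.Agent.V7H19.JC.Shrunk

/-!
# Skew-symmetric matrices and the bound of Lovász for matroid parity
-/

set_option autoImplicit false

namespace Pool.Agent.V7H19.JC

open Module Matrix

variable {F : Type*} [Field F] {m n p q : ℕ}

/-- The skew-symmetric matrices. -/
def skew (F : Type*) [Field F] (d : ℕ) : Submodule F (Matrix (Fin d) (Fin d) F) where
  carrier := {x | xᵀ = -x}
  add_mem' := by
    intro a b ha hb
    simp only [Set.mem_ofPred_eq] at *
    rw [Matrix.transpose_add, ha, hb, neg_add]
  zero_mem' := by simp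
  smul_mem' := by
    intro c x hx
    simp only [Set.mem_ofPred_eq] at *
    rw [Matrix.transpose_smul, hx, smul_neg]

theorem mem_skew {d : ℕ} {x : Matrix (Fin d) (Fin d) F} : x ∈ skew F d ↔ xᵀ = -x := Iff.rfl

/-- the partner of an index -/
def partner (d : ℕ) (i : Fin d) : Fin d :=
  if i.1 % 2 = 0 then (if h : i.1 + 1 < d then ⟨i.1 + 1, h⟩ else i) else ⟨i.1 - 1, by omega⟩

/-- the sign of an index -/
def sgn (F : Type*) [Field F] (d : ℕ) (i : Fin d) : F :=
  if i.1 % 2 = 0 then (if i.1 + 1 < d then 1 else 0) else -1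

theorem partner_partner (d : ℕ) (i : Fin d) : partner d (partner d i) = i := by
  unfold partner
  apply Fin.ext
  by_cases h : i.1 % 2 = 0
  · by_cases h2 : i.1 + 1 < d
    · have h3 : (i.1 + 1) % 2 ≠ 0 := by omega
      simp [h, h2, h3]
    · simp [h, h2]
  · have h3 : (i.1 - 1) % 2 = 0 := by omega
    have h4 : i.1 - 1 + 1 < d := by have := i.2; omega
    have h5 : i.1 - 1 + 1 = i.1 := by omega
    simp [h, h3, h4, h5]

theorem sgn_partner (d : ℕ) (i : Fin d) : sgn F d (partner d i) = - sgn F d i := by
  unfold partner sgn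
  by_cases h : i.1 % 2 = 0
  · by_cases h2 : i.1 + 1 < d
    · have h3 : (i.1 + 1) % 2 ≠ 0 := by omega
      simp [h, h2, h3]
    · simp [h, h2]
  · have h3 : (i.1 - 1) % 2 = 0 := by omega
    have h4 : i.1 - 1 + 1 < d := by have := i.2; omega
    have h5 : i.1 - 1 + 1 = i.1 := by omega
    simp [h, h3, h5]

theorem sgn_cube (d : ℕ) (i : Fin d) : sgn F d i * (sgn F d i * sgn F d i) = sgn F d i := by
  unfold sgn
  split_ifs <;> simp

/-- The standard skew-symmetric matrix. -/
def stdSkew (F : Type*) [Field F] (d : ℕ) : Matrix (Fin d) (Fin d) F :=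
  Matrix.of fun i j => if j = partner d i then sgn F d i else 0

theorem stdSkew_skew (d : ℕ) : stdSkew F d ∈ skew F d := by
  rw [mem_skew]
  ext i j
  simp only [stdSkew, Matrix.transpose_apply, Matrix.of_apply, Matrix.neg_apply]
  by_cases h : i = partner d j
  · subst h
    rw [if_pos rfl, partner_partner, if_pos rfl, sgn_partner, neg_neg]
  · rw [if_neg h, if_neg, neg_zero]
    rintro rfl
    exact h (partner_partner d i).symm

theorem stdSkew_mul (d : ℕ) : stdSkew F d * stdSkew F d =
    - Matrix.diagonal (fun i => sgn F d i * sgn F d i) := by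
  ext i j
  rw [Matrix.mul_apply, Finset.sum_eq_single (partner d i)]
  · simp only [stdSkew, Matrix.of_apply, if_true, Matrix.neg_apply, partner_partner]
    by_cases h : j = i
    · subst h
      rw [if_pos rfl, sgn_partner, Matrix.diagonal_apply_eq]; ring
    · rw [if_neg h, Matrix.diagonal_apply_ne' _ h]; ring
  · intro k _ hk
    simp [stdSkew, hk]
  · simp

theorem stdSkew_diag (d : ℕ) : stdSkew F d * Matrix.diagonal (fun i => sgn F d i * sgn F d i) =
    stdSkew F d := by
  ext i j
  rw [Matrix.mul_diagonal]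
  simp only [stdSkew, Matrix.of_apply]
  by_cases h : j = partner d i
  · subst h
    rw [if_pos rfl, sgn_partner, neg_mul_neg, sgn_cube]
  · rw [if_neg h, zero_mul]

theorem rank_stdSkew (d : ℕ) : (stdSkew F d).rank ≤ 2 * (d / 2) := by
  classical
  rcases Nat.even_or_odd d with h | h
  · have := Matrix.rank_le_width (stdSkew F d)
    obtain ⟨e, rfl⟩ := h
    omega
  · have h1 : (stdSkew F d).rank ≤ (Matrix.diagonal (fun i => sgn F d i * sgn F d i)).rank := by
      conv_lhs => rw [← stdSkew_diag]
      exact Matrix.rank_mul_le_right _ _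
    refine h1.trans ?_
    rw [Matrix.rank_diagonal]
    obtain ⟨e, rfl⟩ := h
    have h2 : Fintype.card {i : Fin (2 * e + 1) // sgn F (2 * e + 1) i * sgn F (2 * e + 1) i ≠ 0} <
        Fintype.card (Fin (2 * e + 1)) := by
      apply Fintype.card_subtype_lt (x := (⟨2 * e, by omega⟩ : Fin (2 * e + 1)))
      simp [sgn]
    rw [Fintype.card_fin] at h2
    omega

/-- **The block of skew-symmetric matrices.** -/
theorem isBlock_skew (h2 : (2 : F) ≠ 0) (d : ℕ) :
    IsBlock (2⁻¹ : F) (skew F d) (skew F d) (stdSkew F d) (- stdSkew F d) := by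
  refine ⟨?_, le_rfl, ?_, ?_⟩
  · rw [Matrix.mul_neg, Matrix.neg_mul, Matrix.mul_assoc, stdSkew_mul, Matrix.mul_neg, neg_neg,
      stdSkew_diag]
  · intro x hx y hy
    have h1 : (1 - 2⁻¹ : F) = 2⁻¹ := by field_simp; norm_num
    rw [h1, ← smul_add]
    apply Submodule.smul_mem
    have h3 := stdSkew_skew (F := F) d
    rw [mem_skew] at *
    rw [Matrix.transpose_add, Matrix.transpose_mul, Matrix.transpose_mul, Matrix.transpose_mul,
      Matrix.transpose_mul, hx, hy, h3]
    simp only [Matrix.neg_mul, Matrix.mul_neg, neg_neg, neg_add, Matrix.mul_assoc]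
    abel
  · intro y hy
    rw [mem_skew] at hy
    have h1 : (1 : Matrix (Fin d) (Fin d) F) - -stdSkew F d * stdSkew F d =
        Matrix.diagonal (fun i => 1 - sgn F d i * sgn F d i) := by
      rw [Matrix.neg_mul, stdSkew_mul, neg_neg, ← Matrix.diagonal_one, Matrix.diagonal_sub]
    have h3 : (1 : Matrix (Fin d) (Fin d) F) - stdSkew F d * -stdSkew F d =
        Matrix.diagonal (fun i => 1 - sgn F d i * sgn F d i) := by
      rw [Matrix.mul_neg, stdSkew_mul, neg_neg, ← Matrix.diagonal_one, Matrix.diagonal_sub]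
    rw [h1, h3]
    ext i j
    rw [Matrix.mul_diagonal, Matrix.diagonal_mul, Matrix.zero_apply]
    by_cases hi : sgn F d i = 0
    · by_cases hj : sgn F d j = 0
      · have h4 : ∀ k : Fin d, sgn F d k = 0 → k.1 + 1 = d := by
          intro k hk
          unfold sgn at hk
          have := k.2
          split_ifs at hk with ha hb
          · simp at hk
          · omega
          · simp at hk
        have h5 : i = j := by
          apply Fin.ext
          have := h4 i hi
          have := h4 j hj
          omega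
        subst h5
        have h6 := congrFun (congrFun hy i) i
        simp only [Matrix.transpose_apply, Matrix.neg_apply] at h6
        have h7 : (2 : F) * y i i = 0 := by linear_combination h6
        rcases mul_eq_zero.1 h7 with h8 | h8
        · exact absurd h8 h2
        · rw [h8]; ring
      · have : sgn F d j * sgn F d j = 1 := by
          have h4 := sgn_cube (F := F) d j
          have h5 : sgn F d j * (sgn F d j * sgn F d j - 1) = 0 := by linear_combination h4
          rcases mul_eq_zero.1 h5 with h6 | h6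
          · exact absurd h6 hj
          · linear_combination h6
        rw [this]; ring
    · have : sgn F d i * sgn F d i = 1 := by
        have h4 := sgn_cube (F := F) d i
        have h5 : sgn F d i * (sgn F d i * sgn F d i - 1) = 0 := by linear_combination h4
        rcases mul_eq_zero.1 h5 with h6 | h6
        · exact absurd h6 hi
        · linear_combination h6
      rw [this]; ring

theorem certified_skew (h2 : (2 : F) ≠ 0) (d : ℕ) :
    Certified (F := F) (skew F d : Set (Matrix (Fin d) (Fin d) F)) (2 * (d / 2)) (1 + d + d) :=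
  (certified_block (isBlock_skew h2 d) _ fun _ h => h).mono (fun _ hx => Submodule.subset_span hx)
    (rank_stdSkew d) le_rfl

/-- **The bound of Lovász for the spaces spanned by skew-symmetric matrices of rank two.** -/
theorem certified_parity (h2 : (2 : F) ≠ 0) {ι : Type*} (u v : ι → Fin n → F) {k : ℕ}
    (W : Submodule F (Fin n → F)) (H : Fin k → Submodule F (Fin n → F)) (c : ι → Fin k)
    (hu : ∀ i, u i ∈ W ⊔ H (c i)) (hv : ∀ i, v i ∈ W ⊔ H (c i)) :
    Certified (Set.range fun i => vecMulVec (u i) (v i) - vecMulVec (v i) (u i))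
      (2 * finrank F W + ∑ j, 2 * (finrank F (H j) / 2))
      (2 + 4 * n + ∑ j, (1 + 2 * finrank F (H j))) := by
  classical
  choose L hL1 hL2 using fun j => exists_cols (H j)
  have h3 : Certified {x : Matrix (Fin n) (Fin n) F | ∃ j, ∃ y ∈ skew F (finrank F (H j)),
      x = L j * y * (L j)ᵀ} (∑ j, 2 * (finrank F (H j) / 2))
      (∑ j, (1 + finrank F (H j) + finrank F (H j))) := by
    refine certified_sum (T := fun j => {x | ∃ y ∈ skew F (finrank F (H j)),
      x = L j * y * (L j)ᵀ}) (fun j => ?_) _ (fun x hx => hx)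
    exact (certified_skew h2 (finrank F (H j))).lift (L j) (L j)ᵀ _ (fun x hx => hx)
  have h4 := (certified_range (n := n) W).add ((certified_rows (m := n) W).add h3
    (T := {x | ∃ y ∈ {x : Matrix (Fin n) (Fin n) F | ∀ v, xᵀ *ᵥ v ∈ W}, ∃ z ∈
      {x : Matrix (Fin n) (Fin n) F | ∃ j, ∃ y ∈ skew F (finrank F (H j)),
      x = L j * y * (L j)ᵀ}, x = y + z}) (fun x hx => hx))
    (T := Set.range fun i => vecMulVec (u i) (v i) - vecMulVec (v i) (u i)) ?_
  · refine h4.mono (fun x hx => Submodule.subset_span hx) (by omega) ?_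
    have h5 : ∑ j, (1 + finrank F (H j) + finrank F (H j)) = ∑ j, (1 + 2 * finrank F (H j)) :=
      Finset.sum_congr rfl fun j _ => by ring
    rw [h5]
    omega
  · rintro _ ⟨i, rfl⟩
    obtain ⟨a, ha, h, hh, hu'⟩ := Submodule.mem_sup.1 (hu i)
    obtain ⟨b, hb, g, hg, hv'⟩ := Submodule.mem_sup.1 (hv i)
    obtain ⟨h', rfl⟩ := hL2 (c i) h hh
    obtain ⟨g', rfl⟩ := hL2 (c i) g hg
    set h := L (c i) *ᵥ h'
    set g := L (c i) *ᵥ g'
    have hmv : ∀ (s t z : Fin n → F), vecMulVec s t *ᵥ z = (t ⬝ᵥ z) • s := by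
      intro s t z
      ext j
      simp [Matrix.mulVec, vecMulVec_apply, dotProduct, Finset.mul_sum, mul_comm, mul_left_comm]
    refine ⟨vecMulVec a (v i) - vecMulVec b (u i), ?_, (vecMulVec h b - vecMulVec g a) +
      (vecMulVec h g - vecMulVec g h), ⟨vecMulVec h b - vecMulVec g a, ?_,
      vecMulVec h g - vecMulVec g h, ⟨c i, vecMulVec h' g' - vecMulVec g' h', ?_, ?_⟩, rfl⟩, ?_⟩
    · intro z
      rw [Matrix.sub_mulVec, hmv, hmv]
      exact sub_mem (Submodule.smul_mem _ _ ha) (Submodule.smul_mem _ _ hb)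
    · intro z
      rw [Matrix.transpose_sub, transpose_vecMulVec, transpose_vecMulVec, Matrix.sub_mulVec, hmv,
        hmv]
      exact sub_mem (Submodule.smul_mem _ _ hb) (Submodule.smul_mem _ _ ha)
    · rw [mem_skew, Matrix.transpose_sub, transpose_vecMulVec, transpose_vecMulVec, neg_sub]
    · rw [Matrix.mul_sub, Matrix.sub_mul, Matrix.mul_vecMulVec, Matrix.mul_vecMulVec,
        Matrix.vecMulVec_mul, Matrix.vecMulVec_mul, Matrix.vecMul_transpose,
        Matrix.vecMul_transpose]
    · simp only
      rw [← hu', ← hv']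
      simp only [Matrix.add_vecMulVec, Matrix.vecMulVec_add]
      abel

end Pool.Agent.V7H19.JC
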